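import Pool.Agent.Lib.DCF.Chn

/-!
# DCF.Seq: chains as sequences
PROOF. `seq_of_chain`: induction on the chain; `push`: extend `K`, `R` by `Function.update` (or `fun i => if i ≤ n then K i else (q, Z)`). `seq_seg`: induction on `j` from `i`: `j = i`: `β = []`, `y = []`, `nr_top`
(every `K i`, `i ≤ n`, is the state and top of a configuration reached by reading). `j + 1`: `R (j+1) = Y ++ R j = (Y ++ β) ++ R i`, `NR K_i [.] (y ++ y') K_(j+1) (. :: (Y ++ β))` by `nr_append`/`nr_loc`.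
-/

set_option autoImplicit false

namespace Pool.Agent.Lib.DCF

variable {Q Γ : Type} {M : PM Q Γ}

/-- a sequence of `n` short pushes -/
def IsSeq (M : PM Q Γ) (q0 : Q) (Z0 : Γ) (G n : ℕ) (K : ℕ → Q × Γ) (R : ℕ → List Γ) : Prop :=
  R 0 = [] ∧ (∃ x : List ℕ, M.NR q0 [Z0] x (K 0).1 [(K 0).2]) ∧
  ∀ i < n, ∃ (Y : List Γ) (y : List ℕ), Y ≠ [] ∧ Y.length ≤ G ∧ R (i + 1) = Y ++ R i ∧
    M.NR (K i).1 [(K i).2] y (K (i + 1)).1 ((K (i + 1)).2 :: Y)

theorem SeqAux.ext {p q : Q} {Z Z' : Γ} {Y : List Γ} {w : List ℕ}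
    (h : M.NR p [Z] w q (Z' :: Y)) (s : List Γ) : M.NR p (Z :: s) w q (Z' :: (Y ++ s)) := by
  have h1 := (nr_loc h s [] q (Z' :: (Y ++ s))).2 (by
    have h2 := nr_fin h
    have h3 := norm_app_cons h2 s
    exact h3)
  rwa [List.append_nil] at h1

theorem SeqAux.stab {q0 : Q} {Z0 : Γ} {G n : ℕ} {K : ℕ → Q × Γ} {R : ℕ → List Γ}
    (h : IsSeq M q0 Z0 G n K R) {i : ℕ} (hi : i ≤ n) :
    M.NR (K i).1 [(K i).2] [] (K i).1 [(K i).2] := by
  cases i with
  | zero =>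
    obtain ⟨-, ⟨x, hx⟩, -⟩ := h
    exact nr_top hx
  | succ i =>
    obtain ⟨Y, y, -, -, -, hY4⟩ := h.2.2 i (by omega)
    exact nr_top hY4

theorem seq_of_chain {q0 : Q} {Z0 : Γ} {G : ℕ} {q : Q} {Z : Γ} {ρ : List Γ}
    (h : M.Chain q0 Z0 G q Z ρ) : ∃ (n : ℕ) (K : ℕ → Q × Γ) (R : ℕ → List Γ),
      IsSeq M q0 Z0 G n K R ∧ K n = (q, Z) ∧ R n = ρ ∧ ρ.length ≤ G * n := by
  induction h with
  | @base q Z x h =>
    exact ⟨0, fun _ => (q, Z), fun _ => [], ⟨rfl, ⟨x, h⟩, fun i hi => absurd hi (Nat.not_lt_zero i)⟩,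
      rfl, rfl, by simp⟩
  | @push q1 Z1 ρ1 q Z Y y h1 h2 h3 h4 ih =>
    obtain ⟨n, K, R, ⟨hR0, hx, hst⟩, hK, hR, hlen⟩ := ih
    refine ⟨n + 1, fun i => if i ≤ n then K i else (q, Z), fun i => if i ≤ n then R i else Y ++ ρ1,
      ⟨?_, ?_, ?_⟩, ?_, ?_, ?_⟩
    · simpa using hR0
    · simpa using hx
    · intro i hi
      rcases Nat.lt_or_ge i n with h | h
      · obtain ⟨Y', y', hY1, hY2, hY3, hY4⟩ := hst i h
        refine ⟨Y', y', hY1, hY2, ?_, ?_⟩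
        · simp only [if_pos (show i + 1 ≤ n from h), if_pos (show i ≤ n from Nat.le_of_lt h)]
          exact hY3
        · simp only [if_pos (show i + 1 ≤ n from h), if_pos (show i ≤ n from Nat.le_of_lt h)]
          exact hY4
      · have hin : i = n := by omega
        subst hin
        refine ⟨Y, y, h3, h4, ?_, ?_⟩
        · simp only [if_neg (show ¬ (i + 1 ≤ i) by omega), if_pos (le_refl i), hR]
        · simp only [if_neg (show ¬ (i + 1 ≤ i) by omega), if_pos (le_refl i), hK]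
          exact h2
    · simp only [if_neg (show ¬ (n + 1 ≤ n) by omega)]
    · simp only [if_neg (show ¬ (n + 1 ≤ n) by omega)]
    · rw [List.length_append, Nat.mul_succ]
      omega

theorem seq_seg {q0 : Q} {Z0 : Γ} {G n : ℕ} {K : ℕ → Q × Γ} {R : ℕ → List Γ}
    (h : IsSeq M q0 Z0 G n K R) {i j : ℕ} (hij : i ≤ j) (hj : j ≤ n) :
    ∃ (β : List Γ) (y : List ℕ), R j = β ++ R i ∧
      M.NR (K i).1 [(K i).2] y (K j).1 ((K j).2 :: β) ∧ (i < j → β ≠ []) := by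
  induction j, hij using Nat.le_induction with
  | base =>
    exact ⟨[], [], rfl, SeqAux.stab h hj, fun h' => absurd h' (lt_irrefl _)⟩
  | succ j hij ih =>
    obtain ⟨β, y, h1, h2, -⟩ := ih (by omega)
    obtain ⟨Y, y', hY1, -, hY3, hY4⟩ := h.2.2 j (by omega)
    refine ⟨Y ++ β, y ++ y', ?_, ?_, fun _ => ?_⟩
    · rw [hY3, h1, List.append_assoc]
    · rw [nr_append]
      refine ⟨_, _, h2, ?_⟩
      exact SeqAux.ext hY4 β
    · simp [hY1]

/-- every point of the sequence is the end of a chain -/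
theorem seq_chain {q0 : Q} {Z0 : Γ} {G n : ℕ} {K : ℕ → Q × Γ} {R : ℕ → List Γ}
    (h : IsSeq M q0 Z0 G n K R) {i : ℕ} (hi : i ≤ n) :
    M.Chain q0 Z0 G (K i).1 (K i).2 (R i) := by
  induction i with
  | zero =>
    obtain ⟨hR0, ⟨x, hx⟩, -⟩ := h
    rw [hR0]
    exact PM.Chain.base hx
  | succ i ih =>
    obtain ⟨Y, y, hY1, hY2, hY3, hY4⟩ := h.2.2 i (by omega)
    rw [hY3]
    exact PM.Chain.push (ih (by omega)) hY4 hY1 hY2

end Pool.Agent.Lib.DCF
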