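import Pool.Agent.Lib.DCF.Tri
import Pool.Agent.Lib.DCF.Seq
import Pool.Agent.Lib.GemCW.Ramsey

/-!
# DCF.Bnd: every chain is equivalent to a short one
PROOF. `GemCW.ramsey'` for the finite type `(Q × Γ) × (Q × Γ) × Set (Q × Q) × Set (Q × Q)` and `m = 3` gives `N`. Put `B = G * N`. Strong induction on the length of `ρ`. If `ρ.length ≤ B` take `ρ' = ρ`. Otherwise `seq_of_chain`: `n`, `K`, `R`, with `G * N < G * n`,
so `N < n`. Colour of `(i, j)`: `(K i, K j, {(p, p') | ∃ t, NR p β t p' []}, {(p, p') | norm p β = (p', [])})` with `β = (R j).take ((R j).length - (R i).length)` (which is the `β` of `seq_seg` for `i ≤ j ≤ n`). Ramsey: `i0 < i1 < i2 < N`, all pairs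
of the same colour. `X = β i0 i1`, `U = β i1 i2`, `β i0 i2 = U ++ X` (`R i2 = U ++ (X ++ R i0)`), `σ = R i0`, `K i0 = K i1 = K i2 = (q*, Z*)`. `tri` (with `reach_of_chain (seq_chain ..)`): `Eqv q* Z* (U ++ (X ++ σ)) (U ++ σ)`, and `Chain q* Z* (U ++ σ)` (`chain_push`).
`seq_seg` for `i2 ≤ n`: `β` with `R n = β ++ R i2`; `eqv_push`, `chain_push`: `Eqv q Z ρ (β ++ (U ++ σ))` and `Chain q Z (β ++ (U ++ σ))`, which is shorter as `X ≠ []`. Induction hypothesis and transitivity of `Eqv`.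
-/

set_option autoImplicit false

namespace Pool.Agent.Lib.DCF

variable {Q Γ : Type} {M : PM Q Γ}

namespace BndAux

/-- the segment between two stacks of a sequence -/
def seg (R : ℕ → List Γ) (i j : ℕ) : List Γ := (R j).take ((R j).length - (R i).length)

theorem seg_eq {R : ℕ → List Γ} {i j : ℕ} {β : List Γ} (h : R j = β ++ R i) : seg R i j = β := by
  unfold seg
  rw [h, List.length_append, Nat.add_sub_cancel, List.take_left]

/-- the colours -/
def col (M : PM Q Γ) (K : ℕ → Q × Γ) (R : ℕ → List Γ) (i j : ℕ) :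
    (Q × Γ) × (Q × Γ) × Set (Q × Q) × Set (Q × Q) :=
  (K i, K j, {z | ∃ t, M.NR z.1 (seg R i j) t z.2 []}, {z | M.norm z.1 (seg R i j) = (z.2, [])})

theorem eqv_trans {q : Q} {Z : Γ} {ρ ρ' ρ'' : List Γ} (h : M.Eqv q Z ρ ρ')
    (h' : M.Eqv q Z ρ' ρ'') : M.Eqv q Z ρ ρ'' := fun z p hz => (h z p hz).trans (h' z p hz)

end BndAux

open BndAux

theorem bound [Finite Q] [Finite Γ] {q0 : Q} {Z0 : Γ} {G : ℕ} (hG : M.Bd G)
    (hreg : SecReg (M.Lam q0 [Z0])) : ∃ B : ℕ, ∀ (q : Q) (Z : Γ) (ρ : List Γ),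
      M.Chain q0 Z0 G q Z ρ → ∃ ρ' : List Γ, ρ'.length ≤ B ∧ M.Eqv q Z ρ ρ' := by
  obtain ⟨N, hN⟩ := GemCW.ramsey' ((Q × Γ) × (Q × Γ) × Set (Q × Q) × Set (Q × Q)) 3
  refine ⟨G * N, ?_⟩
  suffices H : ∀ (l : ℕ) (q : Q) (Z : Γ) (ρ : List Γ), ρ.length = l →
      M.Chain q0 Z0 G q Z ρ → ∃ ρ' : List Γ, ρ'.length ≤ G * N ∧ M.Eqv q Z ρ ρ' from
    fun q Z ρ h => H ρ.length q Z ρ rfl h
  intro l
  induction l using Nat.strong_induction_on with
  | _ l ih =>
    intro q Z ρ hl hch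
    rcases Nat.lt_or_ge (G * N) ρ.length with hlt | hle
    swap
    · exact ⟨ρ, hle, fun _ _ _ => rfl⟩
    obtain ⟨n, K, R, hseq, hKn, hRn, hlen⟩ := seq_of_chain hch
    have hNn : N < n := by
      by_contra hcon
      have h1 : n ≤ N := Nat.le_of_not_lt hcon
      have h2 : G * n ≤ G * N := Nat.mul_le_mul_left _ h1
      omega
    obtain ⟨f, hf1, hf2, k, hf3⟩ := hN (col M K R)
    have h01 : f 0 < f 1 := hf1 0 1 (by norm_num) (by norm_num)
    have h12 : f 1 < f 2 := hf1 1 2 (by norm_num) (by norm_num)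
    have h2N : f 2 < N := hf2 2 (by norm_num)
    have c01 := hf3 0 1 (by norm_num) (by norm_num)
    have c12 := hf3 1 2 (by norm_num) (by norm_num)
    have c02 := hf3 0 2 (by norm_num) (by norm_num)
    have e1 : col M K R (f 0) (f 1) = col M K R (f 1) (f 2) := c01.trans c12.symm
    have e2 : col M K R (f 0) (f 1) = col M K R (f 0) (f 2) := c01.trans c02.symm
    obtain ⟨X, y1, hX1, hX2, hX3⟩ := seq_seg hseq (Nat.le_of_lt h01) (by omega)
    obtain ⟨U, y2, hU1, hU2, hU3⟩ := seq_seg hseq (Nat.le_of_lt h12) (by omega)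
    obtain ⟨β, y3, hβ1, hβ2, -⟩ := seq_seg hseq (show f 2 ≤ n by omega) (le_refl n)
    have hUX : R (f 2) = (U ++ X) ++ R (f 0) := by rw [hU1, hX1, List.append_assoc]
    have s01 : seg R (f 0) (f 1) = X := seg_eq hX1
    have s12 : seg R (f 1) (f 2) = U := seg_eq hU1
    have s02 : seg R (f 0) (f 2) = U ++ X := seg_eq hUX
    have k01 : K (f 0) = K (f 1) := congrArg Prod.fst e1
    have k12 : K (f 1) = K (f 2) := congrArg (fun z => z.2.1) e1
    have a1 : {z : Q × Q | ∃ t, M.NR z.1 X t z.2 []} = {z : Q × Q | ∃ t, M.NR z.1 U t z.2 []} := by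
      have h := congrArg (fun z => z.2.2.1) e1
      simp only [col, s01, s12] at h
      exact h
    have a2 : {z : Q × Q | ∃ t, M.NR z.1 X t z.2 []} =
        {z : Q × Q | ∃ t, M.NR z.1 (U ++ X) t z.2 []} := by
      have h := congrArg (fun z => z.2.2.1) e2
      simp only [col, s01, s02] at h
      exact h
    have b1 : {z : Q × Q | M.norm z.1 X = (z.2, [])} = {z : Q × Q | M.norm z.1 U = (z.2, [])} := by
      have h := congrArg (fun z => z.2.2.2) e1
      simp only [col, s01, s12] at h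
      exact h
    have b2 : {z : Q × Q | M.norm z.1 X = (z.2, [])} =
        {z : Q × Q | M.norm z.1 (U ++ X) = (z.2, [])} := by
      have h := congrArg (fun z => z.2.2.2) e2
      simp only [col, s01, s02] at h
      exact h
    have hch0 := seq_chain hseq (show f 0 ≤ n by omega)
    obtain ⟨x, hx⟩ := reach_of_chain hch0
    rw [← k01] at hX2 hU2
    rw [← k12, ← k01] at hU2 hβ2
    have hT : M.Eqv (K (f 0)).1 (K (f 0)).2 (U ++ (X ++ R (f 0))) (U ++ R (f 0)) :=
      tri hreg hx hX2 hU2 (fun p p' => (Set.ext_iff.1 a1) (p, p'))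
        (fun p p' => (Set.ext_iff.1 a2) (p, p')) (fun p p' => (Set.ext_iff.1 b1) (p, p'))
        (fun p p' => (Set.ext_iff.1 b2) (p, p'))
    have hC : M.Chain q0 Z0 G (K (f 0)).1 (K (f 0)).2 (U ++ R (f 0)) := chain_push hG hch0 hU2
    rw [hKn] at hβ2
    have hT' : M.Eqv q Z (β ++ (U ++ (X ++ R (f 0)))) (β ++ (U ++ R (f 0))) := eqv_push hT hβ2
    have hC' : M.Chain q0 Z0 G q Z (β ++ (U ++ R (f 0))) := chain_push hG hC hβ2
    have hρ : ρ = β ++ (U ++ (X ++ R (f 0))) := by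
      rw [← hRn, hβ1, hUX, List.append_assoc]
    have hXne : X ≠ [] := hX3 h01
    have hXlen : 0 < X.length := List.length_pos_iff.2 hXne
    have hshort : (β ++ (U ++ R (f 0))).length < l := by
      rw [← hl, hρ]
      simp only [List.length_append]
      omega
    obtain ⟨ρ', h1, h2⟩ := ih _ hshort q Z _ rfl hC'
    refine ⟨ρ', h1, ?_⟩
    rw [hρ]
    exact eqv_trans hT' h2

end Pool.Agent.Lib.DCF
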