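import Pool.Agent.Lib.DCF.Defs

/-!
# DCF.Nrm: normalization and reading
Every proof is an induction on the stack (`norm`) or on the word (`NR`), by the equations of the definitions.
-/

set_option autoImplicit false

namespace Pool.Agent.Lib.DCF

variable {Q Γ : Type} {M : PM Q Γ}

theorem norm_pop {q p : Q} {Z : Γ} (h : M.mode q Z = Sum.inl p) (s : List Γ) :
    M.norm q (Z :: s) = M.norm p s := by
  rw [PM.norm, h]

theorem norm_stay {q : Q} {Z : Γ} {f : ℕ → Option (Q × List Γ)} (h : M.mode q Z = Sum.inr f)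
    (s : List Γ) : M.norm q (Z :: s) = (q, Z :: s) := by
  rw [PM.norm, h]

theorem norm_top {q p : Q} {s v : List Γ} {Z : Γ} (h : M.norm q s = (p, Z :: v)) :
    ∃ f, M.mode p Z = Sum.inr f := by
  induction s generalizing q with
  | nil =>
    rw [PM.norm] at h
    simp at h
  | cons Y s ih =>
    cases hm : M.mode q Y with
    | inl p' =>
      rw [norm_pop hm] at h
      exact ih h
    | inr f =>
      rw [norm_stay hm] at h
      simp only [Prod.mk.injEq, List.cons.injEq] at h
      obtain ⟨rfl, rfl, rfl⟩ := h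
      exact ⟨f, hm⟩

theorem norm_app_nil {q p : Q} {u : List Γ} (h : M.norm q u = (p, [])) (s : List Γ) :
    M.norm q (u ++ s) = M.norm p s := by
  induction u generalizing q with
  | nil =>
    rw [PM.norm] at h
    simp only [Prod.mk.injEq, and_true] at h
    subst h
    rfl
  | cons Y u ih =>
    cases hm : M.mode q Y with
    | inl p' =>
      rw [norm_pop hm] at h
      rw [List.cons_append, norm_pop hm]
      exact ih h
    | inr f =>
      rw [norm_stay hm] at h
      simp at h

theorem norm_app_cons {q p : Q} {u v : List Γ} {Z : Γ} (h : M.norm q u = (p, Z :: v))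
    (s : List Γ) : M.norm q (u ++ s) = (p, Z :: (v ++ s)) := by
  induction u generalizing q with
  | nil =>
    rw [PM.norm] at h
    simp at h
  | cons Y u ih =>
    cases hm : M.mode q Y with
    | inl p' =>
      rw [norm_pop hm] at h
      rw [List.cons_append, norm_pop hm]
      exact ih h
    | inr f =>
      rw [norm_stay hm] at h
      rw [List.cons_append, norm_stay hm]
      simp only [Prod.mk.injEq, List.cons.injEq] at h
      obtain ⟨rfl, rfl, rfl⟩ := h
      rfl

theorem norm_suffix (q : Q) (s : List Γ) : (M.norm q s).2 <:+ s := by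
  induction s generalizing q with
  | nil =>
    rw [PM.norm]
  | cons Y s ih =>
    cases hm : M.mode q Y with
    | inl p' =>
      rw [norm_pop hm]
      exact (ih p').trans (List.suffix_cons Y s)
    | inr f =>
      rw [norm_stay hm]

theorem nr_congr {q q' : Q} {s s' : List Γ} (h : M.norm q s = M.norm q' s') (w : List ℕ) (r : Q)
    (t : List Γ) : M.NR q s w r t ↔ M.NR q' s' w r t := by
  cases w with
  | nil => rw [PM.NR, PM.NR, h]
  | cons a w => rw [PM.NR, PM.NR, h]

namespace NrmAux

theorem norm_idem {q r : Q} {s t : List Γ} (h : M.norm q s = (r, t)) : M.norm r t = (r, t) := by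
  cases t with
  | nil => rw [PM.norm]
  | cons Z v =>
    obtain ⟨f, hf⟩ := norm_top h
    exact norm_stay hf v

end NrmAux

theorem nr_det {q r r' : Q} {s t t' : List Γ} {w : List ℕ} (h : M.NR q s w r t)
    (h' : M.NR q s w r' t') : r = r' ∧ t = t' := by
  induction w generalizing q s with
  | nil =>
    rw [PM.NR] at h h'
    rw [h] at h'
    simpa only [Prod.mk.injEq] using h'
  | cons a w ih =>
    rw [PM.NR] at h h'
    obtain ⟨q1, Z1, s1, f1, p1, γ1, h1, h2, h3, h4⟩ := h
    obtain ⟨q2, Z2, s2, f2, p2, γ2, k1, k2, k3, k4⟩ := h'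
    rw [h1] at k1
    simp only [Prod.mk.injEq, List.cons.injEq] at k1
    obtain ⟨rfl, rfl, rfl⟩ := k1
    rw [h2] at k2
    simp only [Sum.inr.injEq] at k2
    subst k2
    rw [h3] at k3
    simp only [Option.some.injEq, Prod.mk.injEq] at k3
    obtain ⟨rfl, rfl⟩ := k3
    exact ih h4 k4

theorem nr_fin {q r : Q} {s t : List Γ} {w : List ℕ} (h : M.NR q s w r t) :
    M.norm r t = (r, t) := by
  induction w generalizing q s with
  | nil =>
    rw [PM.NR] at h
    exact NrmAux.norm_idem h
  | cons a w ih =>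
    rw [PM.NR] at h
    obtain ⟨q1, Z1, s1, f1, p1, γ1, h1, h2, h3, h4⟩ := h
    exact ih h4

theorem nr_append {q r : Q} {s t : List Γ} {v w : List ℕ} :
    M.NR q s (v ++ w) r t ↔ ∃ (q1 : Q) (s1 : List Γ), M.NR q s v q1 s1 ∧ M.NR q1 s1 w r t := by
  induction v generalizing q s with
  | nil =>
    rw [List.nil_append]
    constructor
    · intro h
      refine ⟨(M.norm q s).1, (M.norm q s).2, ?_, ?_⟩
      · rw [PM.NR]
      · exact (nr_congr (NrmAux.norm_idem rfl : M.norm (M.norm q s).1 (M.norm q s).2 = _) w r t).2 h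
    · rintro ⟨q1, s1, h1, h2⟩
      rw [PM.NR] at h1
      exact (nr_congr (by rw [h1, NrmAux.norm_idem h1]) w r t).2 h2
  | cons a v ih =>
    rw [List.cons_append]
    constructor
    · intro h
      rw [PM.NR] at h
      obtain ⟨q', Z, s', f, p, γ, h1, h2, h3, h4⟩ := h
      obtain ⟨q1, s1, h5, h6⟩ := ih.1 h4
      refine ⟨q1, s1, ?_, h6⟩
      rw [PM.NR]
      exact ⟨q', Z, s', f, p, γ, h1, h2, h3, h5⟩
    · rintro ⟨q1, s1, h, h6⟩
      rw [PM.NR] at h
      obtain ⟨q', Z, s', f, p, γ, h1, h2, h3, h5⟩ := h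
      rw [PM.NR]
      exact ⟨q', Z, s', f, p, γ, h1, h2, h3, ih.2 ⟨q1, s1, h5, h6⟩⟩

/-- the top symbol of a configuration reached by reading is stable -/
theorem nr_top {q r : Q} {s t : List Γ} {Z : Γ} {w : List ℕ} (h : M.NR q s w r (Z :: t)) :
    M.NR r [Z] [] r [Z] := by
  obtain ⟨f, hf⟩ := norm_top (nr_fin h)
  rw [PM.NR]
  exact norm_stay hf []

end Pool.Agent.Lib.DCF
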