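import Pool.Agent.Lib.DCF.BrgA
import Pool.Agent.Lib.DCF.Nrm

/-!
# DCF.Brg: from deterministic pushdown automata to normalized ones
PROOF. `norm` of `toPM M S` in the case (a) (`∃ q', Reaches q [Z] [] q' []`) pops `Z`, in the other cases it stays. Claim `lam_iff`, induction on `w` (for all `q`, `b`, `s`), inside it induction on `s`.
`s = []`: `w = []`: `accE`; `w ≠ []`: both sides false (`reaches_nil`). `s = Z :: s1`:
(a) `Reaches q [Z] [] q' []`: `Lam (q, b) (Z :: s1) = Lam (q', b ∨ V) s1` (`norm_pop`, `nr_congr`), induction hypothesis for `s1`. `→`: `V` gives `Reaches q (Z :: s1) [] f _` (`reaches_lift`), and `Reaches q' s1 w f s'` gives `Reaches q (Z :: s1) w f s'`. `←`: `reaches_split` (`u = [Z]`): in the first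
alternative `Reaches q [Z] w f v'` and `reaches_det`: `w = []`, so `V`, (or `Reaches q' [] w f v'`: again `w = []`, `V`); in the second `Reaches q [Z] w1 p []`, so by `reaches_det` `w1 = []`, `p = q'`.
(b) `Reaches q [Z] [] r (Z' :: t)`, `eps r Z' = none`: the configuration `(q, b), Z :: s1` is stable. `w = []`: `acc = b ∨ V`; `reaches_split` and `reaches_det`, `reaches_stable`: the stack `Z` cannot be emptied without reading. `w = a :: w'`: `→`: read, induction hypothesis for `w'` (flag false). `←`:
`reaches_det` for `Reaches q (Z :: s1) [] r (Z' :: (t ++ s1))` and `Reaches q (Z :: s1) (a :: w') f s'`: `Reaches r (Z' :: (t ++ s1)) (a :: w') f s'`, whose first move reads `a`.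
(c) neither: `f = fun _ => none`. `w = []` as in (b). `w = a :: w'`: the left side is false; if `Reaches q (Z :: s1) (a :: w') f s'`: `reaches_split` (`u = [Z]`): first alternative or second with `w1 ≠ []`: `reaches_read` gives (b); second with `w1 = []` gives (a).
The letters of accepted words are in `S`, because only letters of `S` are read: include this in the claim. `bd`: `Q × Bool`, `Γ`, `S` are finite.
-/

set_option autoImplicit false

namespace Pool.Agent.Lib.DCF

variable {Q Γ : Type}

open Classical in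
/-- a final state is visited by the `ε`-run from `(q, [Z])` -/
noncomputable def fv (M : DPDA Q Γ) (q : Q) (Z : Γ) : Bool :=
  decide (∃ (f : Q) (v : List Γ), M.final f ∧ M.Reaches q [Z] [] f v)

open Classical in
/-- the normalized automaton: the flag says that a final state was visited after the last letter; only
letters of `S` are read -/
noncomputable def toPM (M : DPDA Q Γ) (S : Finset ℕ) : PM (Q × Bool) Γ where
  mode := fun q Z =>
    if h : ∃ q' : Q, M.Reaches q.1 [Z] [] q' [] then Sum.inl (h.choose, q.2 || fv M q.1 Z)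
    else if h : ∃ x : Q × Γ × List Γ, M.Reaches q.1 [Z] [] x.1 (x.2.1 :: x.2.2) ∧
        M.eps x.1 x.2.1 = none then
      Sum.inr fun a => if a ∈ S then
        (M.read h.choose.1 h.choose.2.1 a).map fun r => ((r.1, false), r.2 ++ h.choose.2.2)
        else none
    else Sum.inr fun _ => none
  acc := fun q Z => q.2 = true ∨ fv M q.1 Z = true
  accE := fun q => q.2 = true ∨ M.final q.1

namespace BrgAux

open Classical in
theorem mode_a {M : DPDA Q Γ} {S : Finset ℕ} {q : Q} {Z : Γ} (b : Bool)
    (h : ∃ q' : Q, M.Reaches q [Z] [] q' []) :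
    ∃ q' : Q, M.Reaches q [Z] [] q' [] ∧
      (toPM M S).mode (q, b) Z = Sum.inl (q', b || fv M q Z) := by
  refine ⟨h.choose, h.choose_spec, ?_⟩
  change (if h : ∃ q' : Q, M.Reaches q [Z] [] q' [] then _ else _) = _
  rw [dif_pos h]

open Classical in
theorem mode_b {M : DPDA Q Γ} {S : Finset ℕ} {q : Q} {Z : Γ} (b : Bool)
    (h : ¬ ∃ q' : Q, M.Reaches q [Z] [] q' [])
    (h2 : ∃ x : Q × Γ × List Γ, M.Reaches q [Z] [] x.1 (x.2.1 :: x.2.2) ∧
        M.eps x.1 x.2.1 = none) :
    ∃ (r : Q) (Z' : Γ) (t : List Γ) (g : ℕ → Option ((Q × Bool) × List Γ)),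
      M.Reaches q [Z] [] r (Z' :: t) ∧ M.eps r Z' = none ∧
      (toPM M S).mode (q, b) Z = Sum.inr g ∧
      ∀ a, g a = if a ∈ S then
        (M.read r Z' a).map fun r => ((r.1, false), r.2 ++ t) else none := by
  refine ⟨h2.choose.1, h2.choose.2.1, h2.choose.2.2, fun a => if a ∈ S then
        (M.read h2.choose.1 h2.choose.2.1 a).map fun r => ((r.1, false), r.2 ++ h2.choose.2.2)
        else none, h2.choose_spec.1, h2.choose_spec.2, ?_, fun _ => rfl⟩
  change (if h : ∃ q' : Q, M.Reaches q [Z] [] q' [] then _ else _) = _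
  rw [dif_neg h, dif_pos h2]

open Classical in
theorem mode_c {M : DPDA Q Γ} {S : Finset ℕ} {q : Q} {Z : Γ} (b : Bool)
    (h : ¬ ∃ q' : Q, M.Reaches q [Z] [] q' [])
    (h2 : ¬ ∃ x : Q × Γ × List Γ, M.Reaches q [Z] [] x.1 (x.2.1 :: x.2.2) ∧
        M.eps x.1 x.2.1 = none) :
    (toPM M S).mode (q, b) Z = Sum.inr fun _ => none := by
  change (if h : ∃ q' : Q, M.Reaches q [Z] [] q' [] then _ else _) = _
  rw [dif_neg h, dif_neg h2]

theorem mode_none {M : DPDA Q Γ} {S : Finset ℕ} {q : Q × Bool} {Z : Γ}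
    {f : ℕ → Option ((Q × Bool) × List Γ)} {a : ℕ} (h : (toPM M S).mode q Z = Sum.inr f)
    (ha : a ∉ S) : f a = none := by
  obtain ⟨q, b⟩ := q
  by_cases h1 : ∃ q' : Q, M.Reaches q [Z] [] q' []
  · obtain ⟨q', -, h3⟩ := mode_a (S := S) b h1
    rw [h3] at h
    cases h
  · by_cases h2 : ∃ x : Q × Γ × List Γ, M.Reaches q [Z] [] x.1 (x.2.1 :: x.2.2) ∧
        M.eps x.1 x.2.1 = none
    · obtain ⟨r, Z', t, g, -, -, h3, h4⟩ := mode_b (S := S) b h1 h2
      rw [h3] at h
      cases h
      rw [h4, if_neg ha]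
    · rw [mode_c (S := S) b h1 h2] at h
      cases h
      rfl

open Classical in
theorem fv_iff {M : DPDA Q Γ} {q : Q} {Z : Γ} :
    fv M q Z = true ↔ ∃ (f : Q) (v : List Γ), M.final f ∧ M.Reaches q [Z] [] f v := by
  unfold fv
  rw [decide_eq_true_iff]

theorem acc_iff {M : DPDA Q Γ} {S : Finset ℕ} {q : Q} {b : Bool} {Z : Γ} :
    (toPM M S).acc (q, b) Z ↔ b = true ∨ fv M q Z = true := Iff.rfl

theorem accE_iff {M : DPDA Q Γ} {S : Finset ℕ} {q : Q} {b : Bool} :
    (toPM M S).accE (q, b) ↔ b = true ∨ M.final q := Iff.rfl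

/-- the empty word, in the cases in which `Z` is not popped -/
theorem nil_iff {M : DPDA Q Γ} {S : Finset ℕ} {q : Q} {b : Bool} {Z : Γ} {s1 : List Γ}
    {f : ℕ → Option ((Q × Bool) × List Γ)}
    (h : ¬ ∃ q' : Q, M.Reaches q [Z] [] q' []) (hm : (toPM M S).mode (q, b) Z = Sum.inr f) :
    [] ∈ (toPM M S).Lam (q, b) (Z :: s1) ↔
      (b = true ∨ ∃ (f : Q) (s' : List Γ), M.final f ∧ M.Reaches q (Z :: s1) [] f s') := by
  have h1 : [] ∈ (toPM M S).Lam (q, b) (Z :: s1) ↔ (b = true ∨ fv M q Z = true) := by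
    rw [← acc_iff (S := S)]
    constructor
    · rintro ⟨r, t, h2, h3⟩
      have h4 : (toPM M S).norm (q, b) (Z :: s1) = (r, t) := h2
      rw [norm_stay hm] at h4
      cases h4
      exact h3
    · intro h2
      exact ⟨(q, b), Z :: s1, norm_stay hm s1, h2⟩
  rw [h1]
  refine or_congr_right ?_
  rw [fv_iff]
  constructor
  · rintro ⟨f, v, hf, hv⟩
    exact ⟨f, v ++ s1, hf, reaches_lift hv s1⟩
  · rintro ⟨f, s', hf, hv⟩
    rcases reaches_split (u := [Z]) (s := s1) hv with ⟨v', hv', -⟩ | ⟨w1, w2, p, hw, h5, -⟩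
    · exact ⟨f, v', hf, hv'⟩
    · exfalso
      have h6 : w1 = [] := (List.append_eq_nil_iff.1 hw.symm).1
      rw [h6] at h5
      exact h ⟨p, h5⟩

end BrgAux

open BrgAux

theorem bd [Finite Q] [Finite Γ] (M : DPDA Q Γ) (S : Finset ℕ) : ∃ G, (toPM M S).Bd G := by
  classical
  let L : (Q × Bool) × Γ × {a : ℕ // a ∈ S} → ℕ := fun x =>
    match (toPM M S).mode x.1 x.2.1 with
    | Sum.inl _ => 0
    | Sum.inr f => match f x.2.2.1 with
      | some r => r.2.length
      | none => 0
  obtain ⟨G, hG⟩ := (Set.finite_range L).bddAbove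
  refine ⟨G, fun q Z f a r h1 h2 => ?_⟩
  have ha : a ∈ S := by
    by_contra hcon
    rw [mode_none h1 hcon] at h2
    cases h2
  have h3 : L (q, Z, ⟨a, ha⟩) ≤ G := hG ⟨_, rfl⟩
  have h4 : L (q, Z, ⟨a, ha⟩) = r.2.length := by
    simp only [L, h1, h2]
  rwa [h4] at h3

theorem lam_iff (M : DPDA Q Γ) (S : Finset ℕ) (w : List ℕ) (q : Q) (b : Bool) (s : List Γ) :
    w ∈ (toPM M S).Lam (q, b) s ↔ (∀ a ∈ w, a ∈ S) ∧ ((w = [] ∧ b = true) ∨
      ∃ (f : Q) (s' : List Γ), M.final f ∧ M.Reaches q s w f s') := by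
  induction w generalizing q b s with
  | nil =>
    have e1 : ∀ (q : Q) (b : Bool) (s : List Γ), ((∀ a ∈ ([] : List ℕ), a ∈ S) ∧
        ((([] : List ℕ) = [] ∧ b = true) ∨
        ∃ (f : Q) (s' : List Γ), M.final f ∧ M.Reaches q s [] f s')) ↔
        (b = true ∨ ∃ (f : Q) (s' : List Γ), M.final f ∧ M.Reaches q s [] f s') := by
      intro q b s
      constructor
      · rintro ⟨-, ⟨-, h⟩ | h⟩
        · exact Or.inl h
        · exact Or.inr h
      · rintro (h | h)
        · exact ⟨fun a ha => (List.not_mem_nil ha).elim, Or.inl ⟨rfl, h⟩⟩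
        · exact ⟨fun a ha => (List.not_mem_nil ha).elim, Or.inr h⟩
    rw [e1]
    induction s generalizing q b with
    | nil =>
      constructor
      · rintro ⟨r, t, h2, h3⟩
        have h4 : (toPM M S).norm (q, b) [] = (r, t) := h2
        cases h4
        rcases accE_iff.1 h3 with h5 | h5
        · exact Or.inl h5
        · exact Or.inr ⟨q, [], h5, DPDA.Reaches.refl q []⟩
      · intro h
        refine ⟨(q, b), [], rfl, accE_iff.2 ?_⟩
        rcases h with h | ⟨f, s', hf, hs⟩
        · exact Or.inl h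
        · obtain ⟨-, rfl, -⟩ := reaches_nil hs
          exact Or.inr hf
    | cons Z s1 ih =>
      by_cases h1 : ∃ q' : Q, M.Reaches q [Z] [] q' []
      · obtain ⟨q', hq', hm⟩ := mode_a (S := S) b h1
        have h2 : [] ∈ (toPM M S).Lam (q, b) (Z :: s1) ↔
            [] ∈ (toPM M S).Lam (q', b || fv M q Z) s1 := by
          constructor
          · rintro ⟨r, t, h3, h4⟩
            exact ⟨r, t, (nr_congr (norm_pop hm s1) [] r t).1 h3, h4⟩
          · rintro ⟨r, t, h3, h4⟩
            exact ⟨r, t, (nr_congr (norm_pop hm s1) [] r t).2 h3, h4⟩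
        refine h2.trans ((ih q' (b || fv M q Z)).trans ?_)
        rw [Bool.or_eq_true, fv_iff]
        constructor
        · rintro ((h | ⟨f, v, hf, hv⟩) | ⟨f, s', hf, hs⟩)
          · exact Or.inl h
          · exact Or.inr ⟨f, v ++ s1, hf, reaches_lift hv s1⟩
          · exact Or.inr ⟨f, s', hf, reaches_trans (reaches_lift hq' s1) hs⟩
        · rintro (h | ⟨f, s', hf, hs⟩)
          · exact Or.inl (Or.inl h)
          · rcases reaches_split (u := [Z]) (s := s1) hs with ⟨v', hv', -⟩ | ⟨w1, w2, p, hw, h5, h6⟩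
            · exact Or.inl (Or.inr ⟨f, v', hf, hv'⟩)
            · obtain ⟨rfl, rfl⟩ := List.append_eq_nil_iff.1 hw.symm
              rcases reaches_det hq' h5 with ⟨-, h7⟩ | h7
              · obtain ⟨-, rfl, -⟩ := reaches_nil h7
                exact Or.inr ⟨f, s', hf, h6⟩
              · obtain ⟨-, rfl, -⟩ := reaches_nil h7
                exact Or.inr ⟨f, s', hf, h6⟩
      · by_cases h2 : ∃ x : Q × Γ × List Γ, M.Reaches q [Z] [] x.1 (x.2.1 :: x.2.2) ∧
            M.eps x.1 x.2.1 = none
        · obtain ⟨r, Z', t, g, -, -, h3, -⟩ := mode_b (S := S) b h1 h2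
          exact nil_iff h1 h3
        · exact nil_iff h1 (mode_c (S := S) b h1 h2)
  | cons a w' ihw =>
    have e1 : ∀ (q : Q) (b : Bool) (s : List Γ), ((∀ x ∈ a :: w', x ∈ S) ∧
        ((a :: w' = [] ∧ b = true) ∨
        ∃ (f : Q) (s' : List Γ), M.final f ∧ M.Reaches q s (a :: w') f s')) ↔
        ((∀ x ∈ a :: w', x ∈ S) ∧
          ∃ (f : Q) (s' : List Γ), M.final f ∧ M.Reaches q s (a :: w') f s') := by
      intro q b s
      constructor
      · rintro ⟨h0, ⟨h, -⟩ | h⟩
        · cases h
        · exact ⟨h0, h⟩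
      · rintro ⟨h0, h⟩
        exact ⟨h0, Or.inr h⟩
    rw [e1]
    induction s generalizing q b with
    | nil =>
      constructor
      · rintro ⟨r, t, ⟨q', Z, s', f, p, γ, h2, -⟩, -⟩
        cases h2
      · rintro ⟨-, f, s', -, hs⟩
        obtain ⟨h3, -, -⟩ := reaches_nil hs
        cases h3
    | cons Z s1 ih =>
      by_cases h1 : ∃ q' : Q, M.Reaches q [Z] [] q' []
      · obtain ⟨q', hq', hm⟩ := mode_a (S := S) b h1
        have h2 : (a :: w') ∈ (toPM M S).Lam (q, b) (Z :: s1) ↔
            (a :: w') ∈ (toPM M S).Lam (q', b || fv M q Z) s1 := by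
          constructor
          · rintro ⟨r, t, h3, h4⟩
            exact ⟨r, t, (nr_congr (norm_pop hm s1) _ r t).1 h3, h4⟩
          · rintro ⟨r, t, h3, h4⟩
            exact ⟨r, t, (nr_congr (norm_pop hm s1) _ r t).2 h3, h4⟩
        refine h2.trans ((ih q' (b || fv M q Z)).trans ?_)
        refine and_congr_right (fun _ => ?_)
        constructor
        · rintro ⟨f, s', hf, hs⟩
          exact ⟨f, s', hf, reaches_trans (w := []) (reaches_lift hq' s1) hs⟩
        · rintro ⟨f, s', hf, hs⟩
          rcases reaches_split (u := [Z]) (s := s1) hs with ⟨v', hv', -⟩ | ⟨w1, w2, p, hw, h5, h6⟩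
          · exfalso
            rcases reaches_det hq' hv' with ⟨h7, -⟩ | h7
            · cases h7
            · obtain ⟨h8, -, -⟩ := reaches_nil h7
              cases h8
          · have h8 : w1 = [] ∧ p = q' := by
              rcases reaches_det hq' h5 with ⟨h7, h7'⟩ | h7
              · obtain ⟨-, h9, -⟩ := reaches_nil h7'
                exact ⟨h7, h9.symm⟩
              · obtain ⟨h9, h10, -⟩ := reaches_nil h7
                exact ⟨h9, h10⟩
            obtain ⟨rfl, rfl⟩ := h8
            rw [List.nil_append] at hw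
            rw [hw]
            exact ⟨f, s', hf, h6⟩
      · by_cases h2 : ∃ x : Q × Γ × List Γ, M.Reaches q [Z] [] x.1 (x.2.1 :: x.2.2) ∧
            M.eps x.1 x.2.1 = none
        · obtain ⟨r, Z', t, g, hr, he, hm, hg⟩ := mode_b (S := S) b h1 h2
          constructor
          · rintro ⟨r1, t1, ⟨q2, Z2, s2, f2, p, γ, h3, h4, h5, h6⟩, h7⟩
            rw [norm_stay hm] at h3
            cases h3
            rw [hm] at h4
            cases h4
            rw [hg] at h5
            by_cases ha : a ∈ S
            · rw [if_pos ha] at h5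
              obtain ⟨⟨p1, γ1⟩, h8, h9⟩ := Option.map_eq_some_iff.1 h5
              cases h9
              have h10 := (ihw p1 false ((γ1 ++ t) ++ s1)).1 ⟨r1, t1, h6, h7⟩
              obtain ⟨h11, ⟨-, h12⟩ | ⟨f, s', hf, hs⟩⟩ := h10
              · cases h12
              · refine ⟨?_, f, s', hf, ?_⟩
                · intro x hx
                  rcases List.mem_cons.1 hx with rfl | hx
                  · exact ha
                  · exact h11 x hx
                · rw [List.append_assoc] at hs
                  exact reaches_trans (w := []) (reaches_lift hr s1)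
                    (DPDA.Reaches.read h8 hs)
            · rw [if_neg ha] at h5
              cases h5
          · rintro ⟨hS, f, s', hf, hs⟩
            have ha : a ∈ S := hS a List.mem_cons_self
            rcases reaches_det (reaches_lift hr s1) hs with ⟨h7, -⟩ | h7
            · cases h7
            · obtain ⟨p1, γ1, h8, h9⟩ : ∃ (p1 : Q) (γ1 : List Γ), M.read r Z' a = some (p1, γ1) ∧
                  M.Reaches p1 (γ1 ++ (t ++ s1)) w' f s' := by
                cases h7 with
                | eps h h' =>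
                  rw [he] at h
                  cases h
                | read h h' => exact ⟨_, _, h, h'⟩
              have h10 := (ihw p1 false ((γ1 ++ t) ++ s1)).2
                ⟨fun x hx => hS x (List.mem_cons_of_mem _ hx), Or.inr ⟨f, s', hf, by
                  rw [List.append_assoc]; exact h9⟩⟩
              obtain ⟨r1, t1, h11, h12⟩ := h10
              refine ⟨r1, t1, ⟨(q, b), Z, s1, g, (p1, false), γ1 ++ t, norm_stay hm s1, hm, ?_,
                h11⟩, h12⟩
              rw [hg, if_pos ha, h8]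
              rfl
        · have hm := mode_c (S := S) b h1 h2
          constructor
          · rintro ⟨r1, t1, ⟨q2, Z2, s2, f2, p, γ, h3, h4, h5, h6⟩, h7⟩
            rw [norm_stay hm] at h3
            cases h3
            rw [hm] at h4
            cases h4
            cases h5
          · rintro ⟨hS, f, s', hf, hs⟩
            exfalso
            rcases reaches_split (u := [Z]) (s := s1) hs with ⟨v', hv', -⟩ | ⟨w1, w2, p, hw, h5, h6⟩
            · obtain ⟨r, Z0, t, p, γ, h8, h9, -⟩ := reaches_read hv'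
              exact h2 ⟨(r, Z0, t), h8, h9⟩
            · cases w1 with
              | nil => exact h1 ⟨p, h5⟩
              | cons a1 w1 =>
                obtain ⟨r, Z0, t, p, γ, h8, h9, -⟩ := reaches_read h5
                exact h2 ⟨(r, Z0, t), h8, h9⟩

end Pool.Agent.Lib.DCF
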