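import Pool.Agent.Lib.DCF.Defs

/-!
# DCF.BrgA: determinism of pushdown automata
PROOF. All by induction on `Reaches`. `reaches_trans`; `reaches_lift`; `reaches_split`: induction on the run for `u ++ s = ..` (if `u = []`: second alternative with `w1 = []`; if `u = Z :: u'`: one move, then the induction hypothesis for `γ ++ u'`); `reaches_det`: induction on the first run:
`refl`: second alternative; `eps`: the second run is `refl` (then `w = []`, first alternative), `eps` (same move by `Option.some.inj`, induction hypothesis) or `read` (excluded by `det`); `read` is impossible for the word `[]`. `reaches_read`: induction on the run; `eps`: induction hypothesis; `read`: take the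
configuration itself (`eps q Z = none` by `det`).
-/

set_option autoImplicit false

namespace Pool.Agent.Lib.DCF

variable {Q Γ : Type} {M : DPDA Q Γ}

theorem reaches_trans {q r f : Q} {s t v : List Γ} {w w' : List ℕ} (h : M.Reaches q s w r t)
    (h' : M.Reaches r t w' f v) : M.Reaches q s (w ++ w') f v := by
  induction h with
  | refl q s => exact h'
  | eps h _ ih => exact DPDA.Reaches.eps h (ih h')
  | read h _ ih => exact DPDA.Reaches.read h (ih h')

theorem reaches_lift {q r : Q} {s t : List Γ} {w : List ℕ} (h : M.Reaches q s w r t)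
    (u : List Γ) : M.Reaches q (s ++ u) w r (t ++ u) := by
  induction h with
  | refl q s => exact DPDA.Reaches.refl q (s ++ u)
  | eps h _ ih =>
    rw [List.append_assoc] at ih
    exact DPDA.Reaches.eps h ih
  | read h _ ih =>
    rw [List.append_assoc] at ih
    exact DPDA.Reaches.read h ih

namespace BrgAAux

theorem split_aux {q f : Q} {x v : List Γ} {w : List ℕ} (h : M.Reaches q x w f v) :
    ∀ u s : List Γ, u ++ s = x →
    (∃ v' : List Γ, M.Reaches q u w f v' ∧ v = v' ++ s) ∨
    ∃ (w1 w2 : List ℕ) (p : Q), w = w1 ++ w2 ∧ M.Reaches q u w1 p [] ∧ M.Reaches p s w2 f v := by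
  induction h with
  | refl q x =>
    intro u s hu
    exact Or.inl ⟨u, DPDA.Reaches.refl q u, hu.symm⟩
  | @eps q r q' Z s0 γ s' w h h' ih =>
    intro u s hu
    cases u with
    | nil =>
      rw [List.nil_append] at hu
      subst hu
      exact Or.inr ⟨[], w, q, rfl, DPDA.Reaches.refl q [], DPDA.Reaches.eps h h'⟩
    | cons Z' u' =>
      rw [List.cons_append] at hu
      obtain ⟨rfl, rfl⟩ := List.cons.inj hu
      rcases ih (γ ++ u') s (by rw [List.append_assoc]) with ⟨v', h1, h2⟩ | ⟨w1, w2, p, h1, h2, h3⟩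
      · exact Or.inl ⟨v', DPDA.Reaches.eps h h1, h2⟩
      · exact Or.inr ⟨w1, w2, p, h1, DPDA.Reaches.eps h h2, h3⟩
  | @read q r q' Z s0 γ s' a w h h' ih =>
    intro u s hu
    cases u with
    | nil =>
      rw [List.nil_append] at hu
      subst hu
      exact Or.inr ⟨[], a :: w, q, rfl, DPDA.Reaches.refl q [], DPDA.Reaches.read h h'⟩
    | cons Z' u' =>
      rw [List.cons_append] at hu
      obtain ⟨rfl, rfl⟩ := List.cons.inj hu
      rcases ih (γ ++ u') s (by rw [List.append_assoc]) with ⟨v', h1, h2⟩ | ⟨w1, w2, p, h1, h2, h3⟩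
      · exact Or.inl ⟨v', DPDA.Reaches.read h h1, h2⟩
      · exact Or.inr ⟨a :: w1, w2, p, by rw [h1]; rfl, DPDA.Reaches.read h h2, h3⟩

theorem det_aux {q r : Q} {s t : List Γ} {w0 : List ℕ} (h : M.Reaches q s w0 r t) :
    w0 = [] → ∀ {f : Q} {v : List Γ} {w : List ℕ}, M.Reaches q s w f v →
      (w = [] ∧ M.Reaches f v [] r t) ∨ M.Reaches r t w f v := by
  induction h with
  | refl q s => intro _ f v w h'; exact Or.inr h'
  | @eps q r q' Z s0 γ s' w1 h h1 ih =>
    intro h0 f v w h'
    subst h0
    cases h' with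
    | refl => exact Or.inl ⟨rfl, DPDA.Reaches.eps h h1⟩
    | eps h2 h3 =>
      rw [h] at h2
      obtain ⟨rfl, rfl⟩ := Prod.mk.inj (Option.some.inj h2)
      exact ih rfl h3
    | read h2 h3 =>
      exfalso
      have h5 : M.eps q Z ≠ none := by rw [h]; exact Option.some_ne_none _
      exact Option.some_ne_none _ (h2.symm.trans (M.det q Z _ h5))
  | read h _ ih => intro h0; exact absurd h0 (List.cons_ne_nil _ _)

theorem read_aux {q f : Q} {s v : List Γ} {w0 : List ℕ} (h : M.Reaches q s w0 f v) :
    ∀ (a : ℕ) (w : List ℕ), w0 = a :: w → ∃ (r : Q) (Z : Γ) (t : List Γ) (p : Q) (γ : List Γ),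
      M.Reaches q s [] r (Z :: t) ∧ M.eps r Z = none ∧ M.read r Z a = some (p, γ) ∧
      M.Reaches p (γ ++ t) w f v := by
  induction h with
  | refl q s => intro a w h0; exact absurd h0.symm (List.cons_ne_nil _ _)
  | eps h _ ih =>
    intro a w h0
    obtain ⟨r, Z, t, p, γ, h1, h2, h3, h4⟩ := ih a w h0
    exact ⟨r, Z, t, p, γ, DPDA.Reaches.eps h h1, h2, h3, h4⟩
  | @read q r q' Z s0 γ s' a0 w1 h h1 ih =>
    intro a w h0
    obtain ⟨rfl, rfl⟩ := List.cons.inj h0
    refine ⟨q, Z, s0, r, γ, DPDA.Reaches.refl _ _, ?_, h, h1⟩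
    by_contra hne
    have := M.det q Z a0 hne
    rw [h] at this
    exact Option.some_ne_none _ this

end BrgAAux

open BrgAAux

theorem reaches_split {q f : Q} {u s v : List Γ} {w : List ℕ} (h : M.Reaches q (u ++ s) w f v) :
    (∃ v' : List Γ, M.Reaches q u w f v' ∧ v = v' ++ s) ∨
    ∃ (w1 w2 : List ℕ) (p : Q), w = w1 ++ w2 ∧ M.Reaches q u w1 p [] ∧ M.Reaches p s w2 f v :=
  split_aux h u s rfl

theorem reaches_det {q r f : Q} {s t v : List Γ} {w : List ℕ} (h : M.Reaches q s [] r t)
    (h' : M.Reaches q s w f v) : (w = [] ∧ M.Reaches f v [] r t) ∨ M.Reaches r t w f v :=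
  det_aux h rfl h'

theorem reaches_read {q f : Q} {s v : List Γ} {a : ℕ} {w : List ℕ}
    (h : M.Reaches q s (a :: w) f v) : ∃ (r : Q) (Z : Γ) (t : List Γ) (p : Q) (γ : List Γ),
      M.Reaches q s [] r (Z :: t) ∧ M.eps r Z = none ∧ M.read r Z a = some (p, γ) ∧
      M.Reaches p (γ ++ t) w f v :=
  read_aux h a w rfl

/-- from an empty stack nothing is possible -/
theorem reaches_nil {q f : Q} {v : List Γ} {w : List ℕ} (h : M.Reaches q [] w f v) :
    w = [] ∧ f = q ∧ v = [] := by
  cases h with
  | refl => exact ⟨rfl, rfl, rfl⟩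

/-- from a stable configuration nothing is possible without reading -/
theorem reaches_stable {q f : Q} {Z : Γ} {t v : List Γ} (hs : M.eps q Z = none)
    (h : M.Reaches q (Z :: t) [] f v) : f = q ∧ v = Z :: t := by
  cases h with
  | refl => exact ⟨rfl, rfl⟩
  | eps h _ =>
    rw [hs] at h
    exact absurd h.symm (Option.some_ne_none _)

end Pool.Agent.Lib.DCF
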