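import Pool.Agent.Lib.DCF.Ev

/-!
# DCF.C1: the main exchange lemma
PROOF. Fix `w`; `f k := (w ∈ Lam p (β^k ++ σ))`. (i) For `N ≥ m`: `x y^N z t^m w ∈ Lam q0 s0 ↔ f (N - m)`: by `lam_loc` for `hx` (`v = Z :: σ = [Z] ++ σ`), `N` times `hy` (the configuration `(q, Z :: (β^N ++ σ))`, induction on `N`
with `lam_loc`, `rep_succ`), `hz` and `m` times `ht` (`β^(k+1) ++ σ = β ++ (β^k ++ σ)`). (ii) `A` = the regular set of `hreg x y z t w`. The sets `A_N = {v | x ++ (y^N ++ v) ∈ A}` are left quotients of `A`, so finitely many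
(`Language.isRegular_iff_finite_range_leftQuotient` or similar), so `A_N1 = A_N2` for some `N1 < N2`, `d = N2 - N1`. Then `x y^(N1 + k) z t^N1 w ∈ L ↔ x y^(N1 + k + d) z t^N1 w ∈ L` (`v = y^k z t^N1 w`; `y^N1 ++ y^k = y^(N1+k)`),
so `f k ↔ f (k + d)` for all `k`, `f k ↔ f (k + j d)`. (iii) By `ev` (`u = []`) `f` is constant for `k ≥ K`. So `f 0 ↔ f (j d) ↔ f (1 + j d) ↔ f 1` for `j d ≥ K` (take `j = K`).
-/

set_option autoImplicit false

namespace Pool.Agent.Lib.DCF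

variable {Q Γ : Type} {M : PM Q Γ}

namespace C1Aux

theorem push {q : Q} {Z : Γ} {β : List Γ} {y : List ℕ} (hy : M.NR q [Z] y q (Z :: β))
    (σ : List Γ) (N : ℕ) (v : List ℕ) (n : ℕ) :
    rep N y ++ v ∈ M.Lam q ([Z] ++ (rep n β ++ σ)) ↔
      v ∈ M.Lam q ([Z] ++ (rep (n + N) β ++ σ)) := by
  induction N generalizing n with
  | zero => rw [rep_zero, List.nil_append, Nat.add_zero]
  | succ N ih =>
    rw [rep_succ, List.append_assoc, lam_loc hy]
    have e : (Z :: β) ++ (rep n β ++ σ) = [Z] ++ (rep (n + 1) β ++ σ) := by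
      rw [rep_succ]
      simp
    rw [e, ih]
    have e2 : n + 1 + N = n + (N + 1) := by omega
    rw [e2]

theorem pop {p : Q} {β : List Γ} {t : List ℕ} (ht : M.NR p β t p [])
    (σ : List Γ) (m : ℕ) (w : List ℕ) (k : ℕ) :
    rep m t ++ w ∈ M.Lam p (rep (k + m) β ++ σ) ↔ w ∈ M.Lam p (rep k β ++ σ) := by
  induction m with
  | zero => rw [rep_zero, List.nil_append, Nat.add_zero]
  | succ m ih =>
    have e : rep (k + (m + 1)) β ++ σ = β ++ (rep (k + m) β ++ σ) := by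
      rw [← Nat.add_assoc, rep_succ, List.append_assoc]
    rw [rep_succ, List.append_assoc, e, lam_loc ht, List.nil_append, ih]

theorem key {q0 : Q} {s0 : List Γ} {x y z t : List ℕ} {q p : Q} {Z : Γ}
    {β σ : List Γ} (hx : M.NR q0 s0 x q (Z :: σ)) (hy : M.NR q [Z] y q (Z :: β))
    (hz : M.NR q [Z] z p []) (ht : M.NR p β t p []) (w : List ℕ) (k m : ℕ) :
    x ++ (rep (k + m) y ++ (z ++ (rep m t ++ w))) ∈ M.Lam q0 s0 ↔
      w ∈ M.Lam p (rep k β ++ σ) := by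
  have h1 := lam_loc hx [] (rep (k + m) y ++ (z ++ (rep m t ++ w)))
  rw [List.append_nil, List.append_nil] at h1
  rw [h1]
  have e : Z :: σ = [Z] ++ (rep 0 β ++ σ) := by
    rw [rep_zero]
    rfl
  rw [e, push hy, lam_loc hz, List.nil_append, Nat.zero_add, pop ht]

theorem per {f : ℕ → Prop} {d : ℕ} (h : ∀ k, f k ↔ f (k + d)) (k j : ℕ) : f k ↔ f (k + j * d) := by
  induction j with
  | zero => rw [Nat.zero_mul, Nat.add_zero]
  | succ j ih =>
    rw [ih, h (k + j * d)]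
    have e : k + j * d + d = k + (j + 1) * d := by ring
    rw [e]

end C1Aux

theorem c1 {q0 : Q} {s0 : List Γ} (hreg : SecReg (M.Lam q0 s0)) {x y z t : List ℕ} {q p : Q} {Z : Γ}
    {β σ : List Γ} (hx : M.NR q0 s0 x q (Z :: σ)) (hy : M.NR q [Z] y q (Z :: β))
    (hz : M.NR q [Z] z p []) (ht : M.NR p β t p [])
    (hid : ∀ r r' : Q, M.norm r β = (r', []) → M.norm r' β = (r', [])) :
    M.Lam p (β ++ σ) = M.Lam p σ := by
  ext w
  have hA := hreg x y z t w
  set A : Language ℕ := ({v : List ℕ |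
    (∃ N m : ℕ, v = x ++ (rep N y ++ (z ++ (rep m t ++ w)))) ∧ v ∈ M.Lam q0 s0} : Language ℕ)
    with hAdef
  have hmem : ∀ v : List ℕ, v ∈ A ↔
      (∃ N m : ℕ, v = x ++ (rep N y ++ (z ++ (rep m t ++ w)))) ∧ v ∈ M.Lam q0 s0 :=
    fun v => Iff.rfl
  have hfin := hA.finite_range_leftQuotient
  obtain ⟨N1, N2, hlt, heq⟩ : ∃ N1 N2 : ℕ, N1 < N2 ∧
      A.leftQuotient (x ++ rep N1 y) = A.leftQuotient (x ++ rep N2 y) := by
    have hni : ¬ Function.Injective (fun N : ℕ => A.leftQuotient (x ++ rep N y)) := by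
      intro hinj
      have hinf := Set.infinite_range_of_injective hinj
      apply hinf
      refine hfin.subset ?_
      rintro _ ⟨N, rfl⟩
      exact ⟨_, rfl⟩
    simp only [Function.Injective, not_forall] at hni
    obtain ⟨a, b, hab, hne⟩ := hni
    rcases Nat.lt_or_gt_of_ne hne with h | h
    · exact ⟨a, b, h, hab⟩
    · exact ⟨b, a, h, hab.symm⟩
  have hk : ∀ N k : ℕ, (rep k y ++ (z ++ (rep N1 t ++ w)) ∈ A.leftQuotient (x ++ rep N y) ↔
      x ++ (rep (N + k) y ++ (z ++ (rep N1 t ++ w))) ∈ M.Lam q0 s0) := by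
    intro N k
    have e : (x ++ rep N y) ++ (rep k y ++ (z ++ (rep N1 t ++ w))) =
        x ++ (rep (N + k) y ++ (z ++ (rep N1 t ++ w))) := by
      rw [rep_add]
      simp
    rw [Language.mem_leftQuotient, e, hmem]
    exact ⟨fun h => h.2, fun h => ⟨⟨N + k, N1, rfl⟩, h⟩⟩
  have hper : ∀ k : ℕ, w ∈ M.Lam p (rep k β ++ σ) ↔ w ∈ M.Lam p (rep (k + (N2 - N1)) β ++ σ) := by
    intro k
    rw [← C1Aux.key hx hy hz ht w k N1, ← C1Aux.key hx hy hz ht w (k + (N2 - N1)) N1]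
    have e1 : k + N1 = N1 + k := by omega
    have e2 : k + (N2 - N1) + N1 = N2 + k := by omega
    rw [e1, e2, ← hk, ← hk, heq]
  obtain ⟨K, hK⟩ := ev hid σ w p []
  simp only [List.nil_append] at hK
  have hd : 1 ≤ N2 - N1 := by omega
  have hKd : K ≤ K * (N2 - N1) := Nat.le_mul_of_pos_right K hd
  have h0 := C1Aux.per (f := fun k => w ∈ M.Lam p (rep k β ++ σ)) hper 0 K
  have h1 := C1Aux.per (f := fun k => w ∈ M.Lam p (rep k β ++ σ)) hper 1 K
  rw [hK (0 + K * (N2 - N1)) (by omega)] at h0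
  rw [hK (1 + K * (N2 - N1)) (by omega)] at h1
  have e1 : rep 1 β = β := by
    rw [show (1 : ℕ) = 0 + 1 from rfl, rep_succ, rep_zero, List.append_nil]
  rw [rep_zero, List.nil_append] at h0
  rw [e1] at h1
  rw [h1, h0]

end Pool.Agent.Lib.DCF
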