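import Pool.Agent.Lib.DCF.Spl

/-!
# DCF.Chn: reachable configurations and chains of short pushes
PROOF. `reach_of_chain`: induction, `nr_append` and `nr_loc`. `chain_of_reach`: first (H) `Chain q Z ρ` and `NR q [Z] y q' [Z']` imply `Chain q' Z' ρ` (cases; `nr_append`/`nr_loc`). (P) `Chain q Z ρ`, `NR q [Z] z p []`,
`norm p ρ = (q', Z' :: ρ')` imply `Chain q' Z' ρ'`: induction on the chain. `base`: `ρ = []`, `norm p [] = (p, [])`, impossible. `push`: `ρ = Y ++ ρ1`, `NR q1 [Z1] (y ++ z) = norm p Y`; if `norm p Y = (q', Z' :: v)` then `ρ' = v ++ ρ1`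
and `v` is at most as long as `Y` (`norm_suffix`): `push` (or (H) if `v = []`); if `norm p Y = (p'', [])` then `norm p'' ρ1 = (q', Z' :: ρ')`: induction hypothesis with `z := y ++ z`.
Now induction on `x` from the right (`List.reverseRecOn`, `nr_append`): `x = []`: `norm q0 [Z0]` is a suffix of `[Z0]`, so `ρ = []`, `base`. `x ++ [a]`: the configuration before is `(r, W :: τ)` with `Chain r W τ`, `f a = some (p, γ)`,
`norm p (γ ++ τ) = (q, Z :: ρ)`. If `norm p γ = (q, Z :: v)`: `ρ = v ++ τ`, `NR r [W] [a] q (Z :: v)`, `v` is shorter than `γ`: `push` or (H). If `norm p γ = (p', [])`: `NR r [W] [a] p' []`, `norm p' τ = (q, Z :: ρ)`: (P).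
`chain_push`: from the two by `nr_append`, `nr_loc`.
-/

set_option autoImplicit false

namespace Pool.Agent.Lib.DCF

variable {Q Γ : Type} {M : PM Q Γ}

namespace ChnAux

/-- a run of the top symbol, with a stack below -/
theorem ext {q1 q : Q} {Z1 : Γ} {v : List Γ} {y : List ℕ} {Z : Γ} (h : M.NR q1 [Z1] y q (Z :: v))
    (ρ : List Γ) : M.NR q1 (Z1 :: ρ) y q (Z :: (v ++ ρ)) := by
  have h1 : M.norm q (Z :: v) = (q, Z :: v) := nr_fin h
  have h2 : M.NR q ((Z :: v) ++ ρ) [] q (Z :: (v ++ ρ)) := norm_app_cons h1 ρ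
  have h3 := (nr_loc h ρ [] q (Z :: (v ++ ρ))).2 h2
  rw [List.append_nil] at h3
  exact h3

theorem chainH {q0 : Q} {Z0 : Γ} {G : ℕ} {q q' : Q} {Z Z' : Γ} {ρ : List Γ} {y : List ℕ}
    (h : M.Chain q0 Z0 G q Z ρ) (hy : M.NR q [Z] y q' [Z']) : M.Chain q0 Z0 G q' Z' ρ := by
  cases h with
  | base h => exact PM.Chain.base (nr_append.2 ⟨q, [Z], h, hy⟩)
  | push h1 h2 h3 h4 =>
    have h5 := ext hy
    refine PM.Chain.push h1 (nr_append.2 ⟨q, _, h2, h5 _⟩) h3 h4

theorem chainP {q0 : Q} {Z0 : Γ} {G : ℕ} {q : Q} {Z : Γ} {ρ : List Γ}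
    (h : M.Chain q0 Z0 G q Z ρ) : ∀ (z : List ℕ) (p q' : Q) (Z' : Γ) (ρ' : List Γ),
    M.NR q [Z] z p [] → M.norm p ρ = (q', Z' :: ρ') → M.Chain q0 Z0 G q' Z' ρ' := by
  induction h with
  | base h =>
    intro z p q' Z' ρ' hz hn
    rw [PM.norm] at hn
    simp at hn
  | @push q1 Z1 ρ1 q Z Y y h1 h2 h3 h4 ih =>
    intro z p q' Z' ρ' hz hn
    rcases hv : M.norm p Y with ⟨p2, v2⟩
    have h5 : M.NR q1 [Z1] (y ++ z) p2 v2 := by
      refine nr_append.2 ⟨q, Z :: Y, h2, ?_⟩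
      have h6 := (nr_loc hz Y [] p2 v2).2 hv
      rw [List.append_nil] at h6
      exact h6
    cases v2 with
    | nil =>
      rw [norm_app_nil hv] at hn
      exact ih (y ++ z) p2 q' Z' ρ' h5 hn
    | cons Z2 v =>
      rw [norm_app_cons hv] at hn
      simp only [Prod.mk.injEq, List.cons.injEq] at hn
      obtain ⟨rfl, rfl, rfl⟩ := hn
      cases v with
      | nil => exact chainH h1 h5
      | cons W v =>
        refine PM.Chain.push h1 h5 (List.cons_ne_nil _ _) ?_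
        have h6 := norm_suffix (M := M) p Y
        rw [hv] at h6
        have h7 := h6.length_le
        simp only [List.length_cons] at h7 ⊢
        omega

end ChnAux

theorem reach_of_chain {q0 : Q} {Z0 : Γ} {G : ℕ} {q : Q} {Z : Γ} {ρ : List Γ}
    (h : M.Chain q0 Z0 G q Z ρ) : ∃ x : List ℕ, M.NR q0 [Z0] x q (Z :: ρ) := by
  induction h with
  | base h => exact ⟨_, h⟩
  | push h1 h2 h3 h4 ih =>
    obtain ⟨x, hx⟩ := ih
    exact ⟨_, nr_append.2 ⟨_, _, hx, ChnAux.ext h2 _⟩⟩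

theorem chain_of_reach {q0 : Q} {Z0 : Γ} {G : ℕ} (hG : M.Bd G) {q : Q} {Z : Γ} {ρ : List Γ}
    {x : List ℕ} (h : M.NR q0 [Z0] x q (Z :: ρ)) : M.Chain q0 Z0 G q Z ρ := by
  induction x using List.reverseRecOn generalizing q Z ρ with
  | nil =>
    have h1 := norm_suffix (M := M) q0 [Z0]
    have h0 : M.norm q0 [Z0] = (q, Z :: ρ) := h
    rw [h0] at h1
    have h2 := h1.length_le
    simp only [List.length_cons, List.length_nil] at h2
    have h3 : ρ = [] := List.length_eq_zero_iff.1 (by omega)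
    subst h3
    exact PM.Chain.base h
  | append_singleton x a ih =>
    obtain ⟨r, s1, h1, h2⟩ := nr_append.1 h
    obtain ⟨q', Z', s', f, p, γ, h3, h4, h5, h6⟩ := h2
    rw [nr_fin h1] at h3
    simp only [Prod.mk.injEq] at h3
    obtain ⟨rfl, rfl⟩ := h3
    have h7 := ih h1
    have h6' : M.norm p (γ ++ s') = (q, Z :: ρ) := h6
    have h8 : M.norm r [Z'] = (r, [Z']) := norm_stay h4 []
    rcases hv : M.norm p γ with ⟨p2, v2⟩
    have h9 : M.NR r [Z'] [a] p2 v2 := by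
      refine ⟨r, Z', [], f, p, γ, h8, h4, h5, ?_⟩
      rw [List.append_nil]
      exact hv
    cases v2 with
    | nil =>
      rw [norm_app_nil hv] at h6'
      exact ChnAux.chainP h7 [a] p2 q Z ρ h9 h6'
    | cons Z2 v =>
      rw [norm_app_cons hv] at h6'
      simp only [Prod.mk.injEq, List.cons.injEq] at h6'
      obtain ⟨rfl, rfl, rfl⟩ := h6'
      cases v with
      | nil => exact ChnAux.chainH h7 h9
      | cons W v =>
        refine PM.Chain.push h7 h9 (List.cons_ne_nil _ _) ?_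
        have h10 := norm_suffix (M := M) p γ
        rw [hv] at h10
        have h11 := h10.length_le
        have h12 := hG r Z' f a (p, γ) h4 h5
        simp only [List.length_cons] at h11 h12 ⊢
        omega

theorem chain_push {q0 : Q} {Z0 : Γ} {G : ℕ} (hG : M.Bd G) {q1 q : Q} {Z1 Z : Γ} {ρ1 Y : List Γ}
    {y : List ℕ} (h : M.Chain q0 Z0 G q1 Z1 ρ1) (hy : M.NR q1 [Z1] y q (Z :: Y)) :
    M.Chain q0 Z0 G q Z (Y ++ ρ1) := by
  obtain ⟨x, hx⟩ := reach_of_chain h
  exact chain_of_reach hG (nr_append.2 ⟨_, _, hx, ChnAux.ext hy ρ1⟩)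

end Pool.Agent.Lib.DCF
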