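import Mathlib

/-!
# Deterministic context-free languages in minimal rational cones: definitions (MP_f1c4ef_lc)
Text: /team-store/f1c4_det.md
-/

set_option autoImplicit false

namespace Pool.Agent.Lib.DCF

/-- Deterministic pushdown automata with the letters `ℕ`. In the state `q` with `Z` on the top of the
stack there is either one `ε`-move `eps q Z` or, for every letter `a`, at most one move `read q Z a`;
a move replaces the top symbol `Z` by a word of stack symbols. -/
structure DPDA (Q Γ : Type) where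
  start : Q
  bottom : Γ
  final : Q → Prop
  eps : Q → Γ → Option (Q × List Γ)
  read : Q → Γ → ℕ → Option (Q × List Γ)
  det : ∀ q Z a, eps q Z ≠ none → read q Z a = none

/-- `M.Reaches q s w q' s'`: reading `w`, the automaton `M` can go from the state `q` with the stack `s`
(top first) to the state `q'` with the stack `s'` -/
inductive DPDA.Reaches {Q Γ : Type} (M : DPDA Q Γ) : Q → List Γ → List ℕ → Q → List Γ → Prop
  | refl (q : Q) (s : List Γ) : M.Reaches q s [] q s
  | eps {q r q' : Q} {Z : Γ} {s γ s' : List Γ} {w : List ℕ} (h : M.eps q Z = some (r, γ))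
      (h' : M.Reaches r (γ ++ s) w q' s') : M.Reaches q (Z :: s) w q' s'
  | read {q r q' : Q} {Z : Γ} {s γ s' : List Γ} {a : ℕ} {w : List ℕ}
      (h : M.read q Z a = some (r, γ)) (h' : M.Reaches r (γ ++ s) w q' s') :
      M.Reaches q (Z :: s) (a :: w) q' s'

/-- the language accepted by final state -/
def DPDA.lang {Q Γ : Type} (M : DPDA Q Γ) : Language ℕ :=
  {w : List ℕ | ∃ (f : Q) (s : List Γ), M.final f ∧ M.Reaches M.start [M.bottom] w f s}

/-- deterministic context-free languages -/
def IsDCF (L : Language ℕ) : Prop :=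
  ∃ (Q Γ : Type) (_ : Finite Q) (_ : Finite Γ) (M : DPDA Q Γ), L = M.lang

/-- `u` repeated `n` times -/
def rep {α : Type} (n : ℕ) (u : List α) : List α := (List.replicate n u).flatten

/-- Normalized deterministic pushdown automata: in the state `q` with the top `Z`, either `Z` is popped
(`Sum.inl p`: new state `p`) or the automaton reads a letter (`Sum.inr f`). `acc`, `accE`: acceptance
of the configuration (with nonempty and with empty stack). -/
structure PM (Q Γ : Type) where
  mode : Q → Γ → Q ⊕ (ℕ → Option (Q × List Γ))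
  acc : Q → Γ → Prop
  accE : Q → Prop

variable {Q Γ : Type}

/-- pop as long as possible -/
def PM.norm (M : PM Q Γ) : Q → List Γ → Q × List Γ
  | q, [] => (q, [])
  | q, Z :: s => match M.mode q Z with
    | Sum.inl p => PM.norm M p s
    | Sum.inr _ => (q, Z :: s)

/-- reading the word from the configuration `(q, s)` gives the normalized configuration `(r, t)` -/
def PM.NR (M : PM Q Γ) : Q → List Γ → List ℕ → Q → List Γ → Prop
  | q, s, [], r, t => M.norm q s = (r, t)
  | q, s, a :: w, r, t => ∃ (q' : Q) (Z : Γ) (s' : List Γ) (f : ℕ → Option (Q × List Γ)) (p : Q)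
      (γ : List Γ), M.norm q s = (q', Z :: s') ∧ M.mode q' Z = Sum.inr f ∧ f a = some (p, γ) ∧
      PM.NR M p (γ ++ s') w r t

/-- acceptance of a normalized configuration -/
def PM.AccN (M : PM Q Γ) : Q → List Γ → Prop
  | q, [] => M.accE q
  | q, Z :: _ => M.acc q Z

/-- the words accepted from `(q, s)` -/
def PM.Lam (M : PM Q Γ) (q : Q) (s : List Γ) : Language ℕ :=
  {w : List ℕ | ∃ (r : Q) (t : List Γ), M.NR q s w r t ∧ M.AccN r t}

/-- reachable configurations `(q, Z :: ρ)` with a chain of short pushes -/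
inductive PM.Chain (M : PM Q Γ) (q0 : Q) (Z0 : Γ) (G : ℕ) : Q → Γ → List Γ → Prop
  | base {q : Q} {Z : Γ} {x : List ℕ} (h : M.NR q0 [Z0] x q [Z]) : M.Chain q0 Z0 G q Z []
  | push {q1 : Q} {Z1 : Γ} {ρ1 : List Γ} {q : Q} {Z : Γ} {Y : List Γ} {y : List ℕ}
      (h1 : M.Chain q0 Z0 G q1 Z1 ρ1) (h2 : M.NR q1 [Z1] y q (Z :: Y)) (h3 : Y ≠ [])
      (h4 : Y.length ≤ G) : M.Chain q0 Z0 G q Z (Y ++ ρ1)

/-- `ρ` and `ρ'` are equivalent below `(q, Z)` -/
def PM.Eqv (M : PM Q Γ) (q : Q) (Z : Γ) (ρ ρ' : List Γ) : Prop :=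
  ∀ (z : List ℕ) (p : Q), M.NR q [Z] z p [] → M.Lam p ρ = M.Lam p ρ'

/-- the words pushed by reading are short -/
def PM.Bd (M : PM Q Γ) (G : ℕ) : Prop :=
  ∀ (q : Q) (Z : Γ) (f : ℕ → Option (Q × List Γ)) (a : ℕ) (r : Q × List Γ),
    M.mode q Z = Sum.inr f → f a = some r → r.2.length ≤ G

/-- the sections `L ∩ x y^* z t^* w` are regular -/
def SecReg (L : Language ℕ) : Prop :=
  ∀ x y z t w : List ℕ, Language.IsRegular ({v : List ℕ |
    (∃ N m : ℕ, v = x ++ (rep N y ++ (z ++ (rep m t ++ w)))) ∧ v ∈ L} : Language ℕ)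

end Pool.Agent.Lib.DCF
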