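import Pool.Agent.Lib.DCF.Reg
import Pool.Agent.Lib.DCF.Brg

/-!
# DCF.Det: a deterministic language with regular sections is regular
PROOF. `L = M.lang`, `P = toPM M S`. `lam_iff` for `(start, false)`, `[bottom]`: `P.Lam (start, false) [bottom] = L` (all words of `L` are over `S`). `bd` and `reg`.
-/

set_option autoImplicit false

namespace Pool.Agent.Lib.DCF

theorem det_reg {L : Language ℕ} (h : IsDCF L) {S : Finset ℕ} (hS : ∀ w ∈ L, ∀ a ∈ w, a ∈ S)
    (hreg : SecReg L) : L.IsRegular := by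
  obtain ⟨Q, Γ, hQ, hΓ, M, rfl⟩ := h
  have h1 : (toPM M S).Lam (M.start, false) [M.bottom] = M.lang := by
    ext w
    rw [lam_iff]
    constructor
    · rintro ⟨_, h2 | h2⟩
      · exact absurd h2.2 (by decide)
      · exact h2
    · intro h2
      exact ⟨hS w h2, Or.inr h2⟩
  obtain ⟨G, hG⟩ := bd M S
  rw [← h1] at hreg ⊢
  exact reg hG hreg

end Pool.Agent.Lib.DCF
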