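import Pool.Agent.Lib.DCF.Spl

/-!
# DCF.Ev: membership of a word is eventually constant along `u β^N σ`
PROOF. Induction on `w`, for all `q`, `u`. (1) If `norm q u = (q', Z :: v)` then `norm q (u ++ (β^N ++ σ)) = (q', Z :: (v ++ (β^N ++ σ)))`. `w = []`: membership means `acc q' Z`: constant.
`w = a :: w'`: with `mode q' Z = inr f`, `f a = none`: never a member; `f a = some (p, γ)`: `w ∈ Lam q (..)` iff `w' ∈ Lam p ((γ ++ v) ++ (β^N ++ σ))`, induction hypothesis.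
(2) If `norm q u = (q', [])` then `Lam q (u ++ (β^N ++ σ)) = Lam q' (β^N ++ σ)`; for `N ≥ 1` `β^N = β ++ β^(N-1)`. If `norm q' β = (q'', [])` then `norm q'' β = (q'', [])` and `Lam q' (β^N ++ σ) = Lam q'' σ`
for all `N ≥ 1`. If `norm q' β = (q'', Z :: v)`, apply (1) (proved for this `w`) with `u := β`, `N - 1`.
-/

set_option autoImplicit false

namespace Pool.Agent.Lib.DCF

variable {Q Γ : Type} {M : PM Q Γ}

theorem rep_zero {α : Type} (u : List α) : rep 0 u = [] := rfl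

theorem rep_succ {α : Type} (n : ℕ) (u : List α) : rep (n + 1) u = u ++ rep n u := by
  simp [rep, List.replicate_succ]

theorem rep_add {α : Type} (m n : ℕ) (u : List α) : rep (m + n) u = rep m u ++ rep n u := by
  induction m with
  | zero => rw [Nat.zero_add, rep_zero, List.nil_append]
  | succ m ih => rw [Nat.add_right_comm, rep_succ, rep_succ, ih, List.append_assoc]

namespace EvAux

theorem lam_of_norm {q q' : Q} {s s' : List Γ} (h : M.norm q s = M.norm q' s') :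
    M.Lam q s = M.Lam q' s' := by
  ext w
  constructor
  · rintro ⟨r, t, h1, h2⟩
    exact ⟨r, t, (nr_congr h w r t).mp h1, h2⟩
  · rintro ⟨r, t, h1, h2⟩
    exact ⟨r, t, (nr_congr h w r t).mpr h1, h2⟩

theorem lam_app_nil {q q' : Q} {u : List Γ} (h : M.norm q u = (q', [])) (s : List Γ) :
    M.Lam q (u ++ s) = M.Lam q' s :=
  lam_of_norm (norm_app_nil h s)

theorem nil_mem {q q' : Q} {s v : List Γ} {Z : Γ} (h : M.norm q s = (q', Z :: v)) :
    [] ∈ M.Lam q s ↔ M.acc q' Z := by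
  constructor
  · rintro ⟨r, t, h1, h2⟩
    have h3 : M.norm q s = (r, t) := h1
    rw [h] at h3
    obtain ⟨rfl, rfl⟩ := Prod.mk.inj h3
    exact h2
  · intro h1
    exact ⟨q', Z :: v, h, h1⟩

theorem cons_mem {q q' : Q} {s v : List Γ} {Z : Γ} (h : M.norm q s = (q', Z :: v))
    {f : ℕ → Option (Q × List Γ)} (hf : M.mode q' Z = Sum.inr f) (a : ℕ) (w : List ℕ) :
    a :: w ∈ M.Lam q s ↔ ∃ (p : Q) (γ : List Γ), f a = some (p, γ) ∧ w ∈ M.Lam p (γ ++ v) := by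
  constructor
  · rintro ⟨r, t, ⟨q1, Z1, s1, f1, p, γ, h1, h2, h3, h4⟩, h5⟩
    rw [h] at h1
    obtain ⟨rfl, h6⟩ := Prod.mk.inj h1
    obtain ⟨rfl, rfl⟩ := List.cons.inj h6
    rw [hf] at h2
    obtain rfl := Sum.inr.inj h2
    exact ⟨p, γ, h3, r, t, h4, h5⟩
  · rintro ⟨p, γ, h1, r, t, h2, h3⟩
    exact ⟨r, t, ⟨q', Z, v, f, p, γ, h, hf, h1, h2⟩, h3⟩

theorem step {β : List Γ} (hid : ∀ p p' : Q, M.norm p β = (p', []) → M.norm p' β = (p', []))
    (σ : List Γ) (w : List ℕ)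
    (H : ∀ (q : Q) (u : List Γ) (q' : Q) (Z : Γ) (v : List Γ), M.norm q u = (q', Z :: v) →
      ∃ N0 : ℕ, ∀ N, N0 ≤ N →
        (w ∈ M.Lam q (u ++ (rep N β ++ σ)) ↔ w ∈ M.Lam q (u ++ (rep N0 β ++ σ))))
    (q : Q) (u : List Γ) : ∃ N0 : ℕ, ∀ N, N0 ≤ N →
      (w ∈ M.Lam q (u ++ (rep N β ++ σ)) ↔ w ∈ M.Lam q (u ++ (rep N0 β ++ σ))) := by
  obtain ⟨q', l, hq⟩ : ∃ q' l, M.norm q u = (q', l) := ⟨_, _, rfl⟩
  rcases l with _ | ⟨Z, v⟩
  · have e1 : ∀ s, M.Lam q (u ++ s) = M.Lam q' s := lam_app_nil hq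
    obtain ⟨q'', l', hb⟩ : ∃ q'' l', M.norm q' β = (q'', l') := ⟨_, _, rfl⟩
    have e3 : ∀ n : ℕ, rep (n + 1) β ++ σ = β ++ (rep n β ++ σ) := by
      intro n
      rw [rep_succ, List.append_assoc]
    rcases l' with _ | ⟨Z, v⟩
    · have e2 : ∀ n : ℕ, M.Lam q'' (rep n β ++ σ) = M.Lam q'' σ := by
        intro n
        induction n with
        | zero => rw [rep_zero, List.nil_append]
        | succ n ih => rw [e3, lam_app_nil (hid _ _ hb), ih]
      have e4 : ∀ n : ℕ, M.Lam q' (rep (n + 1) β ++ σ) = M.Lam q'' σ := by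
        intro n
        rw [e3, lam_app_nil hb, e2]
      refine ⟨1, fun N hN => ?_⟩
      obtain ⟨n, rfl⟩ : ∃ n, N = n + 1 := ⟨N - 1, by omega⟩
      rw [e1, e1, e4, show (1 : ℕ) = 0 + 1 from rfl, e4]
    · obtain ⟨N1, hN1⟩ := H q' β q'' Z v hb
      refine ⟨N1 + 1, fun N hN => ?_⟩
      obtain ⟨n, rfl⟩ : ∃ n, N = n + 1 := ⟨N - 1, by omega⟩
      rw [e1, e1, e3, e3]
      exact hN1 n (by omega)
  · exact H q u q' Z v hq

end EvAux

theorem ev {β : List Γ} (hid : ∀ p p' : Q, M.norm p β = (p', []) → M.norm p' β = (p', []))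
    (σ : List Γ) (w : List ℕ) (q : Q) (u : List Γ) : ∃ N0 : ℕ, ∀ N, N0 ≤ N →
      (w ∈ M.Lam q (u ++ (rep N β ++ σ)) ↔ w ∈ M.Lam q (u ++ (rep N0 β ++ σ))) := by
  induction w generalizing q u with
  | nil =>
    refine EvAux.step hid σ [] (fun q u q' Z v h => ⟨0, fun N _ => ?_⟩) q u
    rw [EvAux.nil_mem (norm_app_cons h _), EvAux.nil_mem (norm_app_cons h _)]
  | cons a w ih =>
    refine EvAux.step hid σ (a :: w) (fun q u q' Z v h => ?_) q u
    obtain ⟨f, hf⟩ := norm_top h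
    have key : ∀ s, (a :: w ∈ M.Lam q (u ++ s) ↔
        ∃ (p : Q) (γ : List Γ), f a = some (p, γ) ∧ w ∈ M.Lam p (γ ++ (v ++ s))) := fun s =>
      EvAux.cons_mem (norm_app_cons h s) hf a w
    rcases hfa : f a with _ | ⟨p, γ⟩
    · refine ⟨0, fun N _ => ?_⟩
      rw [key, key, hfa]
      simp
    · obtain ⟨N0, hN0⟩ := ih p (γ ++ v)
      refine ⟨N0, fun N hN => ?_⟩
      have key2 : ∀ s, (a :: w ∈ M.Lam q (u ++ s) ↔ w ∈ M.Lam p ((γ ++ v) ++ s)) := by
        intro s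
        rw [key, hfa]
        constructor
        · rintro ⟨p1, γ1, h1, h2⟩
          obtain ⟨rfl, rfl⟩ := Prod.mk.inj (Option.some.inj h1)
          rw [List.append_assoc]
          exact h2
        · intro h2
          rw [List.append_assoc] at h2
          exact ⟨p, γ, rfl, h2⟩
      rw [key2, key2]
      exact hN0 N hN

end Pool.Agent.Lib.DCF
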