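import Pool.Agent.Lib.DCF.Bnd

/-!
# DCF.Reg: regularity
PROOF. By Myhill-Nerode (`Language.isRegular_iff_finite_range_leftQuotient` or the current name) it is enough that the left quotients of `L = Lam q0 [Z0]` form a finite set. The left quotient by `x`: if `NR q0 [Z0] x q s` then it is `Lam q s` (`lam_loc` with `s = []`, or `nr_append` and `nr_det`);
if there are no such `q`, `s` it is empty (`nr_append`). If `s = []`: one of the finitely many `Lam q []`. If `s = Z :: ρ`: `chain_of_reach`, `bound`, `eqv_lam`: it is `Lam q (Z :: ρ')` with `ρ'.length ≤ B`: finitely many (`List.finite_length_le`).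
-/

set_option autoImplicit false

namespace Pool.Agent.Lib.DCF

variable {Q Γ : Type} {M : PM Q Γ}

theorem reg [Finite Q] [Finite Γ] {q0 : Q} {Z0 : Γ} {G : ℕ} (hG : M.Bd G)
    (hreg : SecReg (M.Lam q0 [Z0])) : (M.Lam q0 [Z0]).IsRegular := by
  obtain ⟨B, hB⟩ := bound hG hreg
  rw [Language.isRegular_iff_finite_range_leftQuotient]
  have hfin : (Set.univ ×ˢ {s : List Γ | s.length < B + 2} : Set (Q × List Γ)).Finite :=
    Set.finite_univ.prod (List.finite_length_lt Γ (B + 2))
  refine ((hfin.image (fun c : Q × List Γ => M.Lam c.1 c.2)).insert (0 : Language ℕ)).subset ?_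
  rintro _ ⟨x, rfl⟩
  by_cases hx : ∃ (q : Q) (s : List Γ), M.NR q0 [Z0] x q s
  · right
    obtain ⟨q, s, hqs⟩ := hx
    have h1 : (M.Lam q0 [Z0]).leftQuotient x = M.Lam q s := by
      ext w
      rw [Language.mem_leftQuotient]
      have h2 := lam_loc hqs [] w
      rw [List.append_nil, List.append_nil] at h2
      exact h2
    rw [h1]
    cases s with
    | nil => exact ⟨(q, []), ⟨Set.mem_univ _, by simp⟩, rfl⟩
    | cons Z ρ =>
      obtain ⟨ρ', hlen, heqv⟩ := hB q Z ρ (chain_of_reach hG hqs)
      refine ⟨(q, Z :: ρ'), ⟨Set.mem_univ _, ?_⟩, (eqv_lam heqv).symm⟩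
      simp only [Set.mem_ofPred_eq, List.length_cons]
      omega
  · left
    ext w
    rw [Language.mem_leftQuotient]
    constructor
    · rintro ⟨r, t, h1, _⟩
      obtain ⟨q1, s1, h3, _⟩ := nr_append.1 h1
      exact absurd ⟨q1, s1, h3⟩ hx
    · intro h
      exact absurd h (Language.notMem_zero w)

end Pool.Agent.Lib.DCF
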