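import Pool.Agent.Lib.DCF.Defs
import Pool.Agent.Lib.BCC.BLang

/-!
# DCF.Sec: the sections of the languages of a minimal cone of context-free languages are regular
PROOF. `A = {v | (∃ N m, v = x y^N z t^m w) ∧ v ∈ L}`. The set `B` of the words `x y^N z t^m w` is rational: it is the image of `LS K`, `K = {n : Fin 5 → ℕ | n 0 = 1 ∧ n 2 = 1 ∧ n 4 = 1}`, under the morphism `i ↦ ![x, y, z, t, w] i` (`BLangAux.hm`, `BLangAux.code_hm`), `Rec K` with `N = 2`, `p = 1`,
`rec_rat`, `hom_reg`. So `A ∈ F` (`IsCone.inter`), `A` is contained in `x^* y^* z^* t^* w^*`, and `BCC.cfl` gives the claim.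
-/

set_option autoImplicit false

namespace Pool.Agent.Lib.DCF

open Pool.Agent.Lib.F1c4 Pool.Agent.Lib.BCC

namespace SecAux

/-- the exponents `(1, N, 1, m, 1)` -/
def KK : Set (Fin 5 → ℕ) := {n | n 0 = 1 ∧ n 2 = 1 ∧ n 4 = 1}

theorem rec_KK : Rec KK := by
  refine ⟨2, 1, Nat.one_pos, ?_⟩
  intro n i hi
  constructor
  · rintro ⟨h0, h2, h4⟩
    have hi0 : i ≠ 0 := by rintro rfl; omega
    have hi2 : i ≠ 2 := by rintro rfl; omega
    have hi4 : i ≠ 4 := by rintro rfl; omega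
    refine ⟨?_, ?_, ?_⟩
    · rw [Function.update_of_ne hi0.symm]; exact h0
    · rw [Function.update_of_ne hi2.symm]; exact h2
    · rw [Function.update_of_ne hi4.symm]; exact h4
  · rintro ⟨h0, h2, h4⟩
    have hi0 : i ≠ 0 := by
      rintro rfl
      rw [Function.update_self] at h0
      omega
    have hi2 : i ≠ 2 := by
      rintro rfl
      rw [Function.update_self] at h2
      omega
    have hi4 : i ≠ 4 := by
      rintro rfl
      rw [Function.update_self] at h4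
      omega
    rw [Function.update_of_ne hi0.symm] at h0
    rw [Function.update_of_ne hi2.symm] at h2
    rw [Function.update_of_ne hi4.symm] at h4
    exact ⟨h0, h2, h4⟩

theorem pw_eq (x y z t w : List ℕ) (n : Fin 5 → ℕ) (hn : n ∈ KK) :
    pw ![x, y, z, t, w] n = x ++ (rep (n 1) y ++ (z ++ (rep (n 3) t ++ w))) := by
  obtain ⟨h0, h2, h4⟩ := hn
  unfold pw rep
  simp only [List.ofFn_succ, List.ofFn_zero, List.flatten_cons, List.flatten_nil, List.append_nil]
  simp [h0, h2, h4, Fin.succ]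

end SecAux

open SecAux in
theorem sec_reg {F : Set (Language ℕ)} (hF : IsMinimal F) (hcf : ∀ L ∈ F, L.IsContextFree)
    {L : Language ℕ} (hL : L ∈ F) : SecReg L := by
  intro x y z t w
  set v5 : Fin 5 → List ℕ := ![x, y, z, t, w] with hv5
  set B : Language ℕ := {w : List ℕ | ∃ v ∈ (LS KK : Language ℕ), w = v.flatMap (BLangAux.hm v5)} with hB
  have hBmem : ∀ v : List ℕ, v ∈ B ↔ ∃ N m : ℕ, v = x ++ (rep N y ++ (z ++ (rep m t ++ w))) := by
    intro v
    constructor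
    · rintro ⟨_, ⟨n, hn, rfl⟩, rfl⟩
      rw [BLangAux.code_hm, pw_eq x y z t w n hn]
      exact ⟨n 1, n 3, rfl⟩
    · rintro ⟨N, m, rfl⟩
      refine ⟨code ![1, N, 1, m, 1], ⟨![1, N, 1, m, 1], ⟨rfl, rfl, rfl⟩, rfl⟩, ?_⟩
      rw [BLangAux.code_hm, pw_eq x y z t w ![1, N, 1, m, 1] ⟨rfl, rfl, rfl⟩]
      rfl
  have hrat : Rat B := by
    refine ⟨hom_reg (rec_rat rec_KK) _, (x ++ y ++ z ++ t ++ w).toFinset, ?_⟩
    intro v hv a ha
    obtain ⟨N, m, rfl⟩ := (hBmem v).1 hv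
    simp only [List.mem_append, rep, List.mem_flatten, List.mem_replicate] at ha
    simp only [List.mem_toFinset, List.mem_append]
    rcases ha with ha | ⟨l, ⟨-, rfl⟩, ha⟩ | ha | ⟨l, ⟨-, rfl⟩, ha⟩ | ha <;> tauto
  have hA := hF.1.inter L hL B hrat
  have hAeq : ({v : List ℕ | (∃ N m : ℕ, v = x ++ (rep N y ++ (z ++ (rep m t ++ w)))) ∧ v ∈ L} :
      Language ℕ) = ({v : List ℕ | v ∈ L ∧ v ∈ B} : Language ℕ) := by
    ext v
    constructor
    · rintro ⟨h1, h2⟩
      exact ⟨h2, (hBmem v).2 h1⟩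
    · rintro ⟨h1, h2⟩
      exact ⟨(hBmem v).1 h2, h1⟩
  rw [hAeq]
  refine cfl hF hcf v5 hA ?_
  rintro v ⟨-, _, ⟨n, hn, rfl⟩, rfl⟩
  exact ⟨n, BLangAux.code_hm v5 n⟩

end Pool.Agent.Lib.DCF
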