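import Pool.Agent.Lib.DCF.Nrm

/-!
# DCF.Spl: locality
-/

set_option autoImplicit false

namespace Pool.Agent.Lib.DCF

variable {Q Γ : Type} {M : PM Q Γ}

namespace SplAux

theorem nr_cons {q q' p : Q} {s s' γ : List Γ} {Z : Γ} {f : ℕ → Option (Q × List Γ)} {a : ℕ}
    (hn : M.norm q s = (q', Z :: s')) (hf : M.mode q' Z = Sum.inr f) (ha : f a = some (p, γ))
    (w : List ℕ) (r : Q) (t : List Γ) :
    M.NR q s (a :: w) r t ↔ M.NR p (γ ++ s') w r t := by
  constructor
  · rintro ⟨q1, Z1, s1, f1, p1, γ1, h1, h2, h3, h4⟩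
    rw [hn] at h1
    obtain ⟨rfl, h1'⟩ := Prod.mk.inj h1
    obtain ⟨rfl, rfl⟩ := List.cons.inj h1'
    rw [hf] at h2
    obtain rfl := Sum.inr.inj h2
    rw [ha] at h3
    obtain ⟨rfl, rfl⟩ := Prod.mk.inj (Option.some.inj h3)
    exact h4
  · intro h
    exact ⟨q', Z, s', f, p, γ, hn, hf, ha, h⟩

theorem norm_loc {p q : Q} {u v : List Γ} (h : M.norm p u = (q, v)) (s : List Γ) :
    M.norm p (u ++ s) = M.norm q (v ++ s) := by
  cases v with
  | nil => exact norm_app_nil h s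
  | cons Z v =>
    have h2 : M.norm q (Z :: v) = (q, Z :: v) := nr_fin (w := []) (q := p) (s := u) h
    rw [norm_app_cons h s, norm_app_cons h2 s]

theorem norm_fin_app {r : Q} {Z : Γ} {v : List Γ} (h : M.norm r (Z :: v) = (r, Z :: v))
    (s : List Γ) : M.norm r (Z :: v ++ s) = (r, Z :: v ++ s) := norm_app_cons h s

end SplAux

/-- Induction on `w`. `w = []`: both sides are `NR` of configurations with the same `norm` (`nr_congr`, `norm_app_nil`/`norm_app_cons`
and `nr_fin`). `w = a :: w0`: `norm p u = (q', Z :: s')`, so `norm p (u ++ s) = (q', Z :: (s' ++ s))`, and the induction hypothesis for `γ ++ s'`. -/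
theorem nr_loc {p q : Q} {u v : List Γ} {w : List ℕ} (h : M.NR p u w q v) (s : List Γ)
    (w' : List ℕ) (r : Q) (t : List Γ) :
    M.NR p (u ++ s) (w ++ w') r t ↔ M.NR q (v ++ s) w' r t := by
  induction w generalizing p u with
  | nil => exact nr_congr (SplAux.norm_loc h s) w' r t
  | cons a w ih =>
    obtain ⟨q1, Z1, s1, f1, p1, γ1, h1, h2, h3, h4⟩ := h
    have e := ih h4
    rw [List.append_assoc] at e
    rw [← e]
    exact SplAux.nr_cons (norm_app_cons h1 s) h2 h3 (w ++ w') r t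

/-- Induction on `w`. If `norm p u = (p', [])`, take `w1 = []`, `w2 = w` (`nr_congr`). If `norm p u = (p', Z :: v)`: `w = []` gives the first alternative;
`w = a :: w0`: one reading step, then the induction hypothesis. -/
theorem nr_split {p r : Q} {u s t : List Γ} {w : List ℕ} (h : M.NR p (u ++ s) w r t) :
    (∃ v : List Γ, v ≠ [] ∧ M.NR p u w r v ∧ t = v ++ s) ∨
    ∃ (w1 w2 : List ℕ) (p' : Q), w = w1 ++ w2 ∧ M.NR p u w1 p' [] ∧ M.NR p' s w2 r t := by
  induction w generalizing p u with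
  | nil =>
    rcases hn : M.norm p u with ⟨p', v⟩
    cases v with
    | nil =>
      right
      exact ⟨[], [], p', rfl, hn, (nr_congr (norm_app_nil hn s) [] r t).1 h⟩
    | cons Z v =>
      left
      have h' : M.norm p (u ++ s) = (r, t) := h
      rw [norm_app_cons hn s] at h'
      obtain ⟨rfl, rfl⟩ := Prod.mk.inj h'
      exact ⟨Z :: v, List.cons_ne_nil _ _, hn, rfl⟩
  | cons a w ih =>
    rcases hn : M.norm p u with ⟨p', v⟩
    cases v with
    | nil =>
      right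
      exact ⟨[], a :: w, p', rfl, hn, (nr_congr (norm_app_nil hn s) (a :: w) r t).1 h⟩
    | cons Z v =>
      obtain ⟨q1, Z1, s1, f1, p1, γ1, h1, h2, h3, h4⟩ := h
      rw [norm_app_cons hn s] at h1
      obtain ⟨rfl, h1'⟩ := Prod.mk.inj h1
      obtain ⟨rfl, rfl⟩ := List.cons.inj h1'
      rw [← List.append_assoc] at h4
      rcases ih h4 with ⟨v', hv', hr, ht⟩ | ⟨w1, w2, p2, hw, hr, ht⟩
      · left
        exact ⟨v', hv', (SplAux.nr_cons hn h2 h3 w r v').2 hr, ht⟩
      · right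
        refine ⟨a :: w1, w2, p2, by rw [hw]; rfl, (SplAux.nr_cons hn h2 h3 w1 p2 []).2 hr, ht⟩

/-- From `nr_loc`. -/
theorem lam_loc {p q : Q} {u v : List Γ} {w : List ℕ} (h : M.NR p u w q v) (s : List Γ)
    (w' : List ℕ) : w ++ w' ∈ M.Lam p (u ++ s) ↔ w' ∈ M.Lam q (v ++ s) := by
  constructor
  · rintro ⟨r, t, h1, h2⟩
    exact ⟨r, t, (nr_loc h s w' r t).1 h1, h2⟩
  · rintro ⟨r, t, h1, h2⟩
    exact ⟨r, t, (nr_loc h s w' r t).2 h1, h2⟩

namespace SplAux

theorem lam_sub {p : Q} {u ρ ρ' : List Γ}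
    (h : ∀ (w : List ℕ) (p' : Q), M.NR p u w p' [] → M.Lam p' ρ = M.Lam p' ρ') {w : List ℕ}
    (hw : w ∈ M.Lam p (u ++ ρ)) : w ∈ M.Lam p (u ++ ρ') := by
  obtain ⟨r, t, h1, h2⟩ := hw
  rcases nr_split h1 with ⟨v, hv, hr, ht⟩ | ⟨w1, w2, p', rfl, hr, ht⟩
  · cases v with
    | nil => exact absurd rfl hv
    | cons Z v =>
      have h3 : M.norm r (Z :: v) = (r, Z :: v) := nr_fin hr
      have h4 : M.NR r (Z :: v ++ ρ') [] r (Z :: v ++ ρ') := norm_fin_app h3 ρ'
      have h5 := (nr_loc hr ρ' [] r (Z :: v ++ ρ')).2 h4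
      rw [List.append_nil] at h5
      refine ⟨r, Z :: v ++ ρ', h5, ?_⟩
      rw [ht] at h2
      exact h2
  · have h6 : w2 ∈ M.Lam p' ρ' := by
      rw [← h w1 p' hr]
      exact ⟨r, t, ht, h2⟩
    exact (lam_loc hr ρ' w2).2 h6

end SplAux

/-- By symmetry one inclusion. `nr_split` of the run: in the first alternative `NR p (u ++ ρ') w r (v ++ ρ')` by `nr_loc` (with `w' = []`, `nr_fin`) and `AccN` depends only on the top
of `v ≠ []`; in the second use `h` and `nr_loc`. -/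
theorem lam_congr {p : Q} {u ρ ρ' : List Γ}
    (h : ∀ (w : List ℕ) (p' : Q), M.NR p u w p' [] → M.Lam p' ρ = M.Lam p' ρ') :
    M.Lam p (u ++ ρ) = M.Lam p (u ++ ρ') := by
  ext w
  exact ⟨SplAux.lam_sub h, SplAux.lam_sub fun w p' hr => (h w p' hr).symm⟩

end Pool.Agent.Lib.DCF
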