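import Pool.Agent.Lib.DCF.C1

/-!
# DCF.Tri: a monochromatic triangle gives a shorter equivalent configuration
PROOF. `idem_rel`: let `A = {r | E p r ∧ E r p'}`, nonempty by `dense`. Every `r ∈ A` has `r' ∈ A` with `E r' r` (`dense` for `E p r`, transitivity). If `E r r` for no `r ∈ A`, then `E` restricted to `A` is transitive and irreflexive on a finite
set, so well-founded (`Finite.wellFounded_of_trans_of_irrefl`), and a minimal element of `A` is a contradiction.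
`eqv_push`: let `NR q [Z] z p []`; `lam_congr` with `u = Y`: if `NR p Y w p' []` then `NR q1 [Z1] (y ++ (z ++ w)) p' []` (`nr_append`, `nr_loc` for `Z :: Y = [Z] ++ Y`), so `h` applies. `eqv_lam`: `lam_congr` with `u = [Z]`.
`tri`: `E p p' := ∃ t, NR p X t p' []`. By `hE1`, `hE2` and `NR p (U ++ X) t p' [] ↔ ∃ t1 t2 p1, t = t1 ++ t2 ∧ NR p U t1 p1 [] ∧ NR p1 X t2 p' []` (`nr_split`, `nr_loc`) `E` is transitive and dense. Similarly `norm p (U ++ X) = (p', [])` iff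
`norm p U = (p1, [])` and `norm p1 X = (p', [])` for some `p1` (`norm_app_nil`, `norm_app_cons`); with `hn1`, `hn2`: `norm p X = (p', [])` implies `norm p' X = (p', [])`, and the same for `U` and for `U ++ X`.
Let `NR q [Z] z p []`. By `lam_congr` (`u = U`) we have to show `Lam p' (X ++ σ) = Lam p' σ` if `NR p U w p' []`. `idem_rel`: `p1` with `E p p1`, `E p1 p1`, `E p1 p'`. `NR q [Z] z1 p1 []` for some `z1` (`y2`, `z`, then `t` with `NR p U t p1 []`).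
`c1` for `β = U ++ X` (`y := y1 ++ y2`, `NR q [Z] (y1 ++ y2) q (Z :: (U ++ X))`) and for `β = U`: `Lam p1 ((U ++ X) ++ σ) = Lam p1 σ = Lam p1 (U ++ σ)`. With `NR p1 U t' p' []` and `lam_loc`: `v ∈ Lam p' (X ++ σ) ↔ t' ++ v ∈ Lam p1 (U ++ (X ++ σ)) ↔ t' ++ v ∈ Lam p1 (U ++ σ) ↔ v ∈ Lam p' σ`.
-/

set_option autoImplicit false

namespace Pool.Agent.Lib.DCF

variable {Q Γ : Type} {M : PM Q Γ}

theorem idem_rel {α : Type} [Finite α] {E : α → α → Prop} (htr : ∀ a b c, E a b → E b c → E a c)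
    (dense : ∀ a c, E a c → ∃ b, E a b ∧ E b c) {p p' : α} (h : E p p') :
    ∃ r, E p r ∧ E r r ∧ E r p' := by
  by_contra hno
  push Not at hno
  -- the set `A` with the relation `E`
  let A : Type := {r : α // E p r ∧ E r p'}
  have hA : Nonempty A := by
    obtain ⟨b, h1, h2⟩ := dense p p' h
    exact ⟨⟨b, h1, h2⟩⟩
  let R : A → A → Prop := fun a b => E a.1 b.1
  have hT : IsTrans A R := ⟨fun a b c h1 h2 => htr _ _ _ h1 h2⟩
  have hI : Std.Irrefl R := ⟨fun a h1 => hno a.1 a.2.1 h1 a.2.2⟩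
  have hwf : WellFounded R := Finite.wellFounded_of_trans_of_irrefl R
  obtain ⟨m, _, hm⟩ := hwf.has_min Set.univ ⟨hA.some, trivial⟩
  obtain ⟨b, h1, h2⟩ := dense p m.1 m.2.1
  exact hm ⟨b, h1, htr _ _ _ h2 m.2.2⟩ trivial h2

namespace TriAux

/-- a run of the top symbol to the empty stack, with a stack below -/
theorem extE {q1 p p2 : Q} {u v : List Γ} {y w : List ℕ} (h : M.NR q1 u y p v)
    (hw : M.NR p v w p2 []) : M.NR q1 u (y ++ w) p2 [] :=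
  nr_append.2 ⟨p, v, h, hw⟩

/-- composition of runs `q1 [Z1] → q (Z :: Y)`, `q [Z] → p []`, `p Y → p2 v` -/
theorem comp3 {q1 q p p2 : Q} {Z1 Z : Γ} {Y v : List Γ} {y z w : List ℕ}
    (h1 : M.NR q1 [Z1] y q (Z :: Y)) (h2 : M.NR q [Z] z p []) (h3 : M.NR p Y w p2 v) :
    M.NR q1 [Z1] (y ++ (z ++ w)) p2 v := by
  refine nr_append.2 ⟨q, Z :: Y, h1, ?_⟩
  exact (nr_loc h2 Y w p2 v).2 h3

theorem nr_app_nil {p p' : Q} {U X : List Γ} {t : List ℕ} :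
    M.NR p (U ++ X) t p' [] ↔ ∃ (t1 t2 : List ℕ) (p1 : Q), t = t1 ++ t2 ∧ M.NR p U t1 p1 [] ∧
      M.NR p1 X t2 p' [] := by
  constructor
  · intro h
    rcases nr_split h with ⟨v, hv, hr, ht⟩ | ⟨w1, w2, p1, hw, hr, ht⟩
    · exfalso
      apply hv
      exact (List.append_eq_nil_iff.1 ht.symm).1
    · exact ⟨w1, w2, p1, hw, hr, ht⟩
  · rintro ⟨t1, t2, p1, rfl, h1, h2⟩
    exact (nr_loc h1 X t2 p' []).2 h2

theorem norm_app {p p' : Q} {U X : List Γ} :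
    M.norm p (U ++ X) = (p', []) ↔ ∃ p1 : Q, M.norm p U = (p1, []) ∧ M.norm p1 X = (p', []) := by
  constructor
  · intro h
    rcases hv : M.norm p U with ⟨p1, v⟩
    cases v with
    | nil =>
      rw [norm_app_nil hv] at h
      exact ⟨p1, rfl, h⟩
    | cons W v =>
      rw [norm_app_cons hv] at h
      simp at h
  · rintro ⟨p1, h1, h2⟩
    rw [norm_app_nil h1, h2]

end TriAux

theorem eqv_push {q1 q : Q} {Z1 Z : Γ} {ρ ρ' Y : List Γ} {y : List ℕ} (h : M.Eqv q1 Z1 ρ ρ')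
    (hy : M.NR q1 [Z1] y q (Z :: Y)) : M.Eqv q Z (Y ++ ρ) (Y ++ ρ') := by
  intro z p hz
  refine lam_congr ?_
  intro w p' hw
  exact h _ p' (TriAux.comp3 hy hz hw)

theorem eqv_lam {q : Q} {Z : Γ} {ρ ρ' : List Γ} (h : M.Eqv q Z ρ ρ') :
    M.Lam q (Z :: ρ) = M.Lam q (Z :: ρ') := by
  have h1 : M.Lam q ([Z] ++ ρ) = M.Lam q ([Z] ++ ρ') := lam_congr (fun w p' hw => h w p' hw)
  exact h1

theorem tri [Finite Q] {q0 : Q} {s0 : List Γ} (hreg : SecReg (M.Lam q0 s0)) {x y1 y2 : List ℕ}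
    {q : Q} {Z : Γ} {X U σ : List Γ} (hx : M.NR q0 s0 x q (Z :: σ))
    (hy1 : M.NR q [Z] y1 q (Z :: X)) (hy2 : M.NR q [Z] y2 q (Z :: U))
    (hE1 : ∀ p p' : Q, (∃ t, M.NR p X t p' []) ↔ ∃ t, M.NR p U t p' [])
    (hE2 : ∀ p p' : Q, (∃ t, M.NR p X t p' []) ↔ ∃ t, M.NR p (U ++ X) t p' [])
    (hn1 : ∀ p p' : Q, M.norm p X = (p', []) ↔ M.norm p U = (p', []))
    (hn2 : ∀ p p' : Q, M.norm p X = (p', []) ↔ M.norm p (U ++ X) = (p', [])) :
    M.Eqv q Z (U ++ (X ++ σ)) (U ++ σ) := by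
  -- the relation `E`
  have htr : ∀ a b c : Q, (∃ t, M.NR a X t b []) → (∃ t, M.NR b X t c []) →
      ∃ t, M.NR a X t c [] := by
    intro a b c hab hbc
    obtain ⟨t1, h1⟩ := (hE1 a b).1 hab
    obtain ⟨t2, h2⟩ := hbc
    exact (hE2 a c).2 ⟨t1 ++ t2, TriAux.nr_app_nil.2 ⟨t1, t2, b, rfl, h1, h2⟩⟩
  have hdense : ∀ a c : Q, (∃ t, M.NR a X t c []) → ∃ b, (∃ t, M.NR a X t b []) ∧
      ∃ t, M.NR b X t c [] := by
    intro a c hac
    obtain ⟨t, ht⟩ := (hE2 a c).1 hac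
    obtain ⟨t1, t2, b, _, h1, h2⟩ := TriAux.nr_app_nil.1 ht
    exact ⟨b, (hE1 a b).2 ⟨t1, h1⟩, ⟨t2, h2⟩⟩
  -- idempotence of `norm` on `X`
  have hidX : ∀ r r' : Q, M.norm r X = (r', []) → M.norm r' X = (r', []) := by
    intro r r' h
    obtain ⟨r1, h1, h2⟩ := TriAux.norm_app.1 ((hn2 r r').1 h)
    have h3 := (hn1 r r1).2 h1
    rw [h] at h3
    simp only [Prod.mk.injEq, and_true] at h3
    subst h3
    exact h2
  have hidU : ∀ r r' : Q, M.norm r U = (r', []) → M.norm r' U = (r', []) := by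
    intro r r' h
    exact (hn1 r' r').1 (hidX r r' ((hn1 r r').2 h))
  have hidUX : ∀ r r' : Q, M.norm r (U ++ X) = (r', []) → M.norm r' (U ++ X) = (r', []) := by
    intro r r' h
    exact (hn2 r' r').1 (hidX r r' ((hn2 r r').2 h))
  -- the run pushing `U ++ X`
  have hyUX : M.NR q [Z] (y1 ++ y2) q (Z :: (U ++ X)) := by
    refine nr_append.2 ⟨q, Z :: X, hy1, ?_⟩
    have h1 : M.norm q (Z :: U) = (q, Z :: U) := nr_fin hy2
    have h2 : M.NR q ((Z :: U) ++ X) [] q (Z :: (U ++ X)) := norm_app_cons h1 X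
    have h3 := (nr_loc hy2 X [] q (Z :: (U ++ X))).2 h2
    rw [List.append_nil] at h3
    exact h3
  intro z p hz
  refine lam_congr ?_
  intro w p' hw
  have hE : ∃ t, M.NR p X t p' [] := (hE1 p p').2 ⟨w, hw⟩
  obtain ⟨p1, hp1, hp11, hp1'⟩ := idem_rel (E := fun a b => ∃ t, M.NR a X t b []) htr hdense hE
  obtain ⟨t0, ht0⟩ := (hE1 p p1).1 hp1
  have hz1 : M.NR q [Z] (y2 ++ (z ++ t0)) p1 [] := TriAux.comp3 hy2 hz ht0
  obtain ⟨tU, htU⟩ := (hE1 p1 p1).1 hp11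
  obtain ⟨tUX, htUX⟩ := (hE2 p1 p1).1 hp11
  have c1a := c1 hreg hx hyUX hz1 htUX hidUX
  have c1b := c1 hreg hx hy2 hz1 htU hidU
  obtain ⟨t', ht'⟩ := (hE1 p1 p').1 hp1'
  ext v
  have e1 := lam_loc ht' (X ++ σ) v
  have e2 := lam_loc ht' σ v
  rw [List.nil_append] at e1 e2
  rw [← e1, ← e2, c1b, ← c1a, List.append_assoc]

end Pool.Agent.Lib.DCF
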